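import Pool.Agent.Lib.MP_3550b5_nt.TP.Log.Defs
import Pool.Agent.Lib.MP_3550b5_nt.TP.L2

/-! T4: the multiplicity estimate, by two determinants. -/

namespace Pool.Agent.Lib.MP_3550b5_nt.Lg

open Polynomial

section alg

variable {K : Type*} [Field K]

/-- The derivation `2 G d/dX` on `K[X][v]`, with `v` going to `-G' v - L`. -/
noncomputable def dd (G L : K[X]) (q : K[X][X]) : K[X][X] :=
  C (2 * G) * Tw.dc q + (C (-derivative G) * (derivative q * X) + C (-L) * derivative q)

/-- The operator on the coefficients of `U^j`. -/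
noncomputable def tt (G L : K[X]) (j : ℕ) (q : K[X][X]) : K[X][X] :=
  dd G L q + C (2 * (j : K[X]) * G) * (q * X)

lemma dc_C_mul (a : K[X]) (q : K[X][X]) :
    Tw.dc (C a * q) = C (derivative a) * q + C a * Tw.dc q := by
  ext1 i
  rw [Tw.coeff_dc, coeff_C_mul, derivative_mul, coeff_add, coeff_C_mul, coeff_C_mul, Tw.coeff_dc]

lemma dd_add (G L : K[X]) (q r : K[X][X]) : dd G L (q + r) = dd G L q + dd G L r := by
  unfold dd
  rw [Tw.dc_add, derivative_add]
  ring

lemma dd_C_mul (G L a : K[X]) (q : K[X][X]) :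
    dd G L (C a * q) = C (2 * G * derivative a) * q + C a * dd G L q := by
  unfold dd
  rw [dc_C_mul, derivative_C_mul]
  simp only [C_mul]
  ring

/-- Bounds for the degree in `v` and for the degree in `X`. -/
def Bd (A e : ℕ) (q : K[X][X]) : Prop := q.natDegree ≤ e ∧ ∀ i, (q.coeff i).natDegree ≤ A

lemma Bd.mono {A e A' e' : ℕ} {q : K[X][X]} (h : Bd A e q) (hA : A ≤ A') (he : e ≤ e') :
    Bd A' e' q := ⟨h.1.trans he, fun i => (h.2 i).trans hA⟩

lemma bd_zero (A e : ℕ) : Bd A e (0 : K[X][X]) := ⟨by simp, by simp⟩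

lemma bd_one : Bd 0 0 (1 : K[X][X]) := by
  refine ⟨by simp, fun i => ?_⟩
  rw [coeff_one]
  split_ifs <;> simp

lemma Bd.add {A e : ℕ} {q r : K[X][X]} (hq : Bd A e q) (hr : Bd A e r) : Bd A e (q + r) := by
  refine ⟨natDegree_add_le_of_degree_le hq.1 hr.1, fun i => ?_⟩
  rw [coeff_add]
  exact natDegree_add_le_of_degree_le (hq.2 i) (hr.2 i)

lemma Bd.sum {ι : Type*} {A e : ℕ} (s : Finset ι) (q : ι → K[X][X]) (h : ∀ i ∈ s, Bd A e (q i)) :
    Bd A e (∑ i ∈ s, q i) := by
  classical
  induction s using Finset.induction_on with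
  | empty => simpa using bd_zero A e
  | insert a s ha ih =>
    rw [Finset.sum_insert ha]
    exact (h a (Finset.mem_insert_self _ _)).add
      (ih fun i hi => h i (Finset.mem_insert_of_mem hi))

lemma Bd.mul {A e A' e' : ℕ} {q r : K[X][X]} (hq : Bd A e q) (hr : Bd A' e' r) :
    Bd (A + A') (e + e') (q * r) := by
  refine ⟨natDegree_mul_le.trans (add_le_add hq.1 hr.1), fun i => ?_⟩
  rw [coeff_mul]
  refine natDegree_sum_le_of_forall_le _ _ fun x _ => ?_
  exact natDegree_mul_le.trans (add_le_add (hq.2 _) (hr.2 _))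

lemma Bd.prod {ι : Type*} {A e : ι → ℕ} (s : Finset ι) (q : ι → K[X][X])
    (h : ∀ i ∈ s, Bd (A i) (e i) (q i)) : Bd (∑ i ∈ s, A i) (∑ i ∈ s, e i) (∏ i ∈ s, q i) := by
  classical
  induction s using Finset.induction_on with
  | empty => simpa using bd_one
  | insert a s ha ih =>
    rw [Finset.prod_insert ha, Finset.sum_insert ha, Finset.sum_insert ha]
    exact (h a (Finset.mem_insert_self _ _)).mul
      (ih fun i hi => h i (Finset.mem_insert_of_mem hi))

lemma Bd.neg {A e : ℕ} {q : K[X][X]} (hq : Bd A e q) : Bd A e (-q) := by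
  refine ⟨by rw [natDegree_neg]; exact hq.1, fun i => ?_⟩
  rw [coeff_neg, natDegree_neg]; exact hq.2 i

lemma Bd.det {ι : Type*} [Fintype ι] [DecidableEq ι] {A e : ι → ℕ} (M : Matrix ι ι K[X][X])
    (h : ∀ i j, Bd (A i) (e i) (M i j)) : Bd (∑ i, A i) (∑ i, e i) M.det := by
  rw [Matrix.det_apply]
  refine Bd.sum _ _ fun σ _ => ?_
  have h1 : Bd (∑ i, A i) (∑ i, e i) (∏ i, M (σ i) i) := by
    have := Bd.prod (A := fun i => A (σ i)) (e := fun i => e (σ i)) Finset.univ
      (fun i => M (σ i) i) fun i _ => h _ _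
    rw [Equiv.sum_comp σ A, Equiv.sum_comp σ e] at this
    exact this
  rcases Int.units_eq_one_or (Equiv.Perm.sign σ) with h2 | h2
  · rw [h2, one_smul]; exact h1
  · rw [h2]
    simpa using h1.neg

lemma bd_C {A : ℕ} {a : K[X]} (h : a.natDegree ≤ A) : Bd A 0 (C a) := by
  refine ⟨by simp, fun i => ?_⟩
  rw [coeff_C]
  split_ifs
  · exact h
  · simp

lemma Bd.dd {G L : K[X]} (hG : G.natDegree ≤ 4) (hL : L.natDegree ≤ 4) {A e : ℕ} {q : K[X][X]}
    (hq : Bd A e q) : Bd (A + 4) e (dd G L q) := by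
  have h2G : (2 * G).natDegree ≤ 4 := by
    rw [show (2 : K[X]) = C 2 from (map_ofNat C 2).symm]
    exact (natDegree_C_mul_le _ _).trans hG
  have h1 : Bd A e (Tw.dc q) := by
    refine ⟨(Tw.natDegree_dc_le q).trans hq.1, fun i => ?_⟩
    rw [Tw.coeff_dc]
    exact (natDegree_derivative_le _).trans ((Nat.sub_le _ _).trans (hq.2 i))
  have h2 : Bd A e (derivative q) := by
    refine ⟨(natDegree_derivative_le _).trans ((Nat.sub_le _ _).trans hq.1), fun i => ?_⟩
    rw [coeff_derivative]
    have h3 : ((i : K[X]) + 1) = C ((i : K) + 1) := by simp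
    rw [h3]
    exact (natDegree_mul_C_le _ _).trans (hq.2 _)
  have h3 : Bd A e (derivative q * X) := by
    refine ⟨?_, fun i => ?_⟩
    · rcases Nat.eq_zero_or_pos q.natDegree with h0 | h0
      · rw [derivative_of_natDegree_zero h0, zero_mul]; simp
      · refine natDegree_mul_le.trans ?_
        have h4 := natDegree_derivative_le q
        have h5 := natDegree_X_le (R := K[X])
        have := hq.1
        omega
    · cases i with
      | zero => rw [coeff_mul_X_zero]; simp
      | succ i => rw [coeff_mul_X]; exact h2.2 i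
  unfold Lg.dd
  refine Bd.add ?_ (Bd.add ?_ ?_)
  · have := (bd_C h2G).mul h1
    rw [zero_add, add_comm 4 A] at this
    exact this
  · have := (bd_C (a := -derivative G) (A := 4) (by
      rw [natDegree_neg]
      exact (natDegree_derivative_le _).trans ((Nat.sub_le _ _).trans hG))).mul h3
    rw [zero_add, add_comm 4 A] at this
    exact this
  · have := (bd_C (a := -L) (A := 4) (by rw [natDegree_neg]; exact hL)).mul h2
    rw [zero_add, add_comm 4 A] at this
    exact this

lemma Bd.tt {G L : K[X]} (hG : G.natDegree ≤ 4) (hL : L.natDegree ≤ 4) (j : ℕ) {A e : ℕ}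
    {q : K[X][X]} (hq : Bd A e q) : Bd (A + 4) (e + 1) (tt G L j q) := by
  unfold Lg.tt
  refine ((hq.dd hG hL).mono le_rfl (Nat.le_succ _)).add ?_
  have h2G : (2 * (j : K[X]) * G).natDegree ≤ 4 := by
    have : (2 * (j : K[X])) = C (2 * (j : K)) := by rw [C_mul, map_ofNat, map_natCast]
    rw [this]
    exact (natDegree_C_mul_le _ _).trans hG
  have hX : Bd 0 1 (X : K[X][X]) := by
    refine ⟨natDegree_X_le, fun i => ?_⟩
    rw [coeff_X]
    split_ifs <;> simp
  have := (bd_C h2G).mul (hq.mul hX)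
  rw [zero_add, add_zero, add_comm 4 A] at this
  exact this

lemma Bd.dd_iter {G L : K[X]} (hG : G.natDegree ≤ 4) (hL : L.natDegree ≤ 4) {A e : ℕ}
    {q : K[X][X]} (hq : Bd A e q) (κ : ℕ) : Bd (A + 4 * κ) e ((Lg.dd G L)^[κ] q) := by
  induction κ with
  | zero => simpa using hq
  | succ κ ih =>
    rw [Function.iterate_succ_apply']
    have := ih.dd hG hL
    rw [show A + 4 * (κ + 1) = A + 4 * κ + 4 by ring]
    exact this

lemma Bd.tt_iter {G L : K[X]} (hG : G.natDegree ≤ 4) (hL : L.natDegree ≤ 4) (j : ℕ) {A : ℕ}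
    {q : K[X][X]} (hq : Bd A 0 q) (κ : ℕ) : Bd (A + 4 * κ) κ ((Lg.tt G L j)^[κ] q) := by
  induction κ with
  | zero => simpa using hq
  | succ κ ih =>
    rw [Function.iterate_succ_apply']
    have := ih.tt hG hL j
    rw [show A + 4 * (κ + 1) = A + 4 * κ + 4 by ring]
    exact this

/-- The leading coefficients. -/
lemma coeff_tt_iter {G L : K[X]} (j : ℕ) (a : K[X]) (κ : ℕ) :
    ((Lg.tt G L j)^[κ] (C a)).natDegree ≤ κ ∧
      ((Lg.tt G L j)^[κ] (C a)).coeff κ = (2 * (j : K[X]) * G) ^ κ * a := by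
  induction κ with
  | zero => simp
  | succ κ ih =>
    rw [Function.iterate_succ_apply']
    set q := (Lg.tt G L j)^[κ] (C a) with hq
    obtain ⟨h1, h2⟩ := ih
    have hq1 : q.coeff (κ + 1) = 0 := coeff_eq_zero_of_natDegree_lt (by omega)
    have hq2 : q.coeff (κ + 1 + 1) = 0 := coeff_eq_zero_of_natDegree_lt (by omega)
    constructor
    · rw [natDegree_le_iff_coeff_eq_zero]
      intro i hi
      have e1 : q.coeff i = 0 := coeff_eq_zero_of_natDegree_lt (by omega)
      have e2 : q.coeff (i + 1) = 0 := coeff_eq_zero_of_natDegree_lt (by omega)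
      obtain ⟨i', rfl⟩ := Nat.exists_eq_succ_of_ne_zero (show i ≠ 0 by omega)
      have e3 : q.coeff i' = 0 := coeff_eq_zero_of_natDegree_lt (by omega)
      rw [Nat.succ_eq_add_one] at e1 e2 ⊢
      unfold Lg.tt Lg.dd
      rw [coeff_add, coeff_add, coeff_add, coeff_C_mul, coeff_C_mul, coeff_C_mul, coeff_C_mul,
        Tw.coeff_dc, coeff_mul_X, coeff_mul_X, coeff_derivative, coeff_derivative, e1, e2, e3]
      simp
    · unfold Lg.tt Lg.dd
      rw [coeff_add, coeff_add, coeff_add, coeff_C_mul, coeff_C_mul, coeff_C_mul, coeff_C_mul,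
        Tw.coeff_dc, coeff_mul_X, coeff_mul_X, coeff_derivative, coeff_derivative, hq1, hq2, h2]
      simp only [derivative_zero, mul_zero, zero_mul, add_zero, zero_add]
      ring

lemma coeff_prod_of_natDegree_le' {R ι : Type*} [CommRing R] (s : Finset ι) (f : ι → R[X])
    (e : ι → ℕ) (h : ∀ i ∈ s, (f i).natDegree ≤ e i) :
    (∏ i ∈ s, f i).natDegree ≤ ∑ i ∈ s, e i ∧
      (∏ i ∈ s, f i).coeff (∑ i ∈ s, e i) = ∏ i ∈ s, (f i).coeff (e i) := by
  classical
  induction s using Finset.induction_on with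
  | empty => simp
  | insert a s ha ih =>
    obtain ⟨h1, h2⟩ := ih fun i hi => h i (Finset.mem_insert_of_mem hi)
    have h3 := h a (Finset.mem_insert_self _ _)
    rw [Finset.prod_insert ha, Finset.sum_insert ha, Finset.prod_insert ha]
    exact ⟨natDegree_mul_le.trans (add_le_add h3 h1),
      by rw [coeff_mul_add_eq_of_natDegree_le h3 h1, h2]⟩

lemma coeff_det {R ι : Type*} [CommRing R] [Fintype ι] [DecidableEq ι] (M : Matrix ι ι R[X])
    (e : ι → ℕ) (h : ∀ i j, (M i j).natDegree ≤ e i) :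
    M.det.coeff (∑ i, e i) = (Matrix.of fun i j => (M i j).coeff (e i)).det := by
  rw [Matrix.det_apply, Matrix.det_apply, finsetSum_coeff]
  refine Finset.sum_congr rfl fun σ _ => ?_
  have h1 := (coeff_prod_of_natDegree_le' Finset.univ (fun i => M (σ i) i) (fun i => e (σ i))
    fun i _ => h _ _).2
  rw [Equiv.sum_comp σ e] at h1
  rcases Int.units_eq_one_or (Equiv.Perm.sign σ) with h2 | h2
  · rw [h2, one_smul, one_smul, h1]; rfl
  · rw [h2]
    simp only [Units.neg_smul, one_smul, coeff_neg, h1]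
    rfl

lemma natDegree_det_le' {R ι : Type*} [CommRing R] [Fintype ι] [DecidableEq ι]
    (M : Matrix ι ι R[X]) (e : ι → ℕ) (h : ∀ i j, (M i j).natDegree ≤ e i) :
    M.det.natDegree ≤ ∑ i, e i := by
  rw [Matrix.det_apply]
  refine natDegree_sum_le_of_forall_le _ _ fun σ _ => ?_
  have h1 := (coeff_prod_of_natDegree_le' Finset.univ (fun i => M (σ i) i) (fun i => e (σ i))
    fun i _ => h _ _).1
  rw [Equiv.sum_comp σ e] at h1
  rcases Int.units_eq_one_or (Equiv.Perm.sign σ) with h2 | h2
  · rw [h2, one_smul]; exact h1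
  · rw [h2]
    simp only [Units.neg_smul, one_smul, natDegree_neg]
    exact h1

end alg

section det1

variable {K : Type*} [Field K] [CharZero K] {G L : K[X]}

/-- The first determinant. -/
noncomputable def mat1 (G L : K[X]) (P : K[X][X]) : Matrix P.support P.support K[X][X] :=
  Matrix.of fun i j => (tt G L (j : ℕ))^[(P.support.equivFin i : ℕ)] (C (P.coeff j))

lemma mat1_det_ne (hG : G ≠ 0) (P : K[X][X]) : (mat1 G L P).det ≠ 0 := by
  classical
  intro h0
  have h1 := coeff_det (mat1 G L P) (fun i => (P.support.equivFin i : ℕ)) fun i j =>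
    (coeff_tt_iter _ _ _).1
  rw [h0, coeff_zero] at h1
  have h2 : (Matrix.of fun i j => (mat1 G L P i j).coeff (P.support.equivFin i : ℕ)) =
      Matrix.of fun i (j : P.support) => P.coeff j * (Matrix.of fun (i j : P.support) =>
        (2 * ((j : ℕ) : K[X]) * G) ^ (P.support.equivFin i : ℕ)) i j := by
    ext1 i j
    simp only [Matrix.of_apply, mat1]
    rw [(coeff_tt_iter _ _ _).2, mul_comm]
  rw [h2, Matrix.det_mul_row] at h1
  have h3 : (Matrix.of fun (i j : P.support) =>
        (2 * ((j : ℕ) : K[X]) * G) ^ (P.support.equivFin i : ℕ)) =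
      ((Matrix.vandermonde fun j : Fin P.support.card =>
        (2 * (((P.support.equivFin.symm j : P.support) : ℕ) : K[X]) * G)).transpose).submatrix
          P.support.equivFin P.support.equivFin := by
    ext1 i j
    simp [Matrix.vandermonde_apply]
  rw [h3, Matrix.det_submatrix_equiv_self, Matrix.det_transpose] at h1
  rcases mul_eq_zero.mp h1.symm with h4 | h4
  · obtain ⟨j, -, hj⟩ := Finset.prod_eq_zero_iff.mp h4
    exact (mem_support_iff.mp j.2) hj
  · refine Matrix.det_vandermonde_ne_zero_iff.mpr ?_ h4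
    intro i j hij
    have h5 := mul_right_cancel₀ hG hij
    have h6 : (2 : K[X]) ≠ 0 := by
      rw [show (2 : K[X]) = C 2 from (map_ofNat C 2).symm, Ne, C_eq_zero]
      exact two_ne_zero
    have h7 := mul_left_cancel₀ h6 h5
    have h8 : ((P.support.equivFin.symm i : P.support) : ℕ) =
        ((P.support.equivFin.symm j : P.support) : ℕ) := by exact_mod_cast h7
    exact P.support.equivFin.symm.injective (Subtype.ext h8)

end det1

section det2

variable {K : Type*} [Field K] [CharZero K] {G L : K[X]}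

omit [CharZero K] in
lemma dd_smul (G L a : K[X]) (q : K[X][X]) :
    dd G L (a • q) = (2 * G * derivative a) • q + a • dd G L q := by
  rw [smul_eq_C_mul, smul_eq_C_mul, smul_eq_C_mul, dd_C_mul]

/-- One step down: an element of exact degree `n` from one of exact degree `n + 1`. -/
lemma desc (hG : Squarefree G) (hL : L ≠ 0) (hdeg : L.natDegree + 1 < G.natDegree) {n : ℕ}
    {q : K[X][X]} (hqn : q.natDegree = n + 1) :
    (q.coeff (n + 1) • dd G L q - (dd G L q).coeff (n + 1) • q).natDegree = n ∧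
      q.coeff (n + 1) • dd G L q - (dd G L q).coeff (n + 1) • q ≠ 0 := by
  have hq0 : q ≠ 0 := by rintro rfl; simp at hqn
  have hlead : q.coeff (n + 1) ≠ 0 := by
    rw [← hqn, coeff_natDegree]
    exact leadingCoeff_ne_zero.mpr hq0
  rw [smul_eq_C_mul, smul_eq_C_mul]
  set R : K[X][X] := dd G L q with hR
  have hRdeg : R.natDegree ≤ n + 1 := by
    rw [hR, dd]
    refine natDegree_add_le_of_degree_le ?_ (natDegree_add_le_of_degree_le ?_ ?_)
    · exact (natDegree_C_mul_le _ _).trans ((Tw.natDegree_dc_le q).trans hqn.le)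
    · refine (natDegree_C_mul_le _ _).trans (natDegree_mul_le.trans ?_)
      have := natDegree_derivative_le q
      have h3 := natDegree_X_le (R := K[X])
      omega
    · refine (natDegree_C_mul_le _ _).trans ?_
      have := natDegree_derivative_le q
      omega
  set r : K[X][X] := C (q.coeff (n + 1)) * R - C (R.coeff (n + 1)) * q with hr
  have hrdeg : r.natDegree ≤ n + 1 := by
    rw [hr]
    refine (natDegree_sub_le _ _).trans (max_le ?_ ?_)
    · exact (natDegree_C_mul_le _ _).trans hRdeg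
    · exact (natDegree_C_mul_le _ _).trans hqn.le
  have hrc : r.coeff (n + 1) = 0 := by
    rw [hr, coeff_sub, coeff_C_mul, coeff_C_mul]
    ring
  have hrn : r.coeff n ≠ 0 := by
    intro hrn
    rw [hr, coeff_sub, coeff_C_mul, coeff_C_mul] at hrn
    have hq2 : q.coeff (n + 1 + 1) = 0 := coeff_eq_zero_of_natDegree_lt (by omega)
    have hR1 : R.coeff (n + 1) = 2 * G * derivative (q.coeff (n + 1)) -
        derivative G * (((n : K[X]) + 1) * q.coeff (n + 1)) := by
      rw [hR, dd, coeff_add, coeff_add, coeff_C_mul, coeff_C_mul, coeff_C_mul, Tw.coeff_dc,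
        Tw.coeff_derivative_mul_X, coeff_derivative, hq2]
      push_cast
      ring
    have hR2 : R.coeff n = 2 * G * derivative (q.coeff n) -
        derivative G * ((n : K[X]) * q.coeff n) -
        L * (q.coeff (n + 1) * ((n : K[X]) + 1)) := by
      rw [hR, dd, coeff_add, coeff_add, coeff_C_mul, coeff_C_mul, coeff_C_mul, Tw.coeff_dc,
        Tw.coeff_derivative_mul_X, coeff_derivative]
      ring
    rw [hR1, hR2] at hrn
    have hn0 : ((n : K[X]) + 1) ≠ 0 := by exact_mod_cast Nat.succ_ne_zero n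
    have hd : derivative ((n : K[X]) + 1) = 0 := by
      rw [derivative_add, derivative_natCast, derivative_one, add_zero]
    refine Tw.no_rational hG hL hdeg (P := -q.coeff n) (Q := ((n : K[X]) + 1) * q.coeff (n + 1))
      (mul_ne_zero hn0 hlead) ?_
    rw [derivative_neg, derivative_mul, hd]
    linear_combination -((n : K[X]) + 1) * hrn
  constructor
  · refine le_antisymm ?_ (le_natDegree_of_ne_zero hrn)
    have hr0 : r ≠ 0 := fun h => hrn (by rw [h, coeff_zero])
    have := Tw.natDegree_lt_of_coeff_eq_zero hrdeg hrc hr0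
    omega
  · intro h
    exact hrn (by rw [h, coeff_zero])

/-- The span of the first iterates. -/
noncomputable def spn (G L : K[X]) (w : K[X][X]) (i : ℕ) : Submodule K[X] K[X][X] :=
  Submodule.span K[X] {q | ∃ κ ≤ i, q = (dd G L)^[κ] w}

omit [CharZero K] in
lemma spn_mono (w : K[X][X]) {i j : ℕ} (h : i ≤ j) : spn G L w i ≤ spn G L w j :=
  Submodule.span_mono fun _ ⟨κ, hκ, e⟩ => ⟨κ, hκ.trans h, e⟩

omit [CharZero K] in
lemma dd_mem_spn (w : K[X][X]) {i : ℕ} {q : K[X][X]} (hq : q ∈ spn G L w i) :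
    dd G L q ∈ spn G L w (i + 1) := by
  unfold spn at hq
  induction hq using Submodule.span_induction with
  | mem q h =>
    obtain ⟨κ, hκ, rfl⟩ := h
    refine Submodule.subset_span ⟨κ + 1, by omega, ?_⟩
    rw [Function.iterate_succ_apply']
  | zero =>
    have : dd G L (0 : K[X][X]) = 0 := by
      have := dd_add G L 0 0
      rw [add_zero] at this
      exact left_eq_add.mp this
    rw [this]
    exact Submodule.zero_mem _
  | add x y _ _ hx hy =>
    rw [dd_add]
    exact Submodule.add_mem _ hx hy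
  | smul a x hx ih =>
    rw [dd_smul]
    refine Submodule.add_mem _ (Submodule.smul_mem _ _ ?_) (Submodule.smul_mem _ _ ih)
    exact spn_mono w (Nat.le_succ i) hx

lemma exists_desc (hG : Squarefree G) (hL : L ≠ 0) (hdeg : L.natDegree + 1 < G.natDegree)
    {w : K[X][X]} (hw : w ≠ 0) (i : ℕ) (hi : i ≤ w.natDegree) :
    ∃ q ∈ spn G L w i, q ≠ 0 ∧ q.natDegree = w.natDegree - i := by
  induction i with
  | zero => exact ⟨w, Submodule.subset_span ⟨0, le_rfl, rfl⟩, hw, rfl⟩
  | succ i ih =>
    obtain ⟨q, hq, hq0, hqd⟩ := ih (by omega)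
    have h1 : q.natDegree = (w.natDegree - (i + 1)) + 1 := by omega
    obtain ⟨h2, h3⟩ := desc hG hL hdeg h1
    refine ⟨_, ?_, h3, h2⟩
    refine Submodule.sub_mem _ (Submodule.smul_mem _ _ (dd_mem_spn w hq))
      (Submodule.smul_mem _ _ (spn_mono w (Nat.le_succ i) hq))

/-- The second determinant. -/
noncomputable def mat2 (G L : K[X]) (w : K[X][X]) :
    Matrix (Fin (w.natDegree + 1)) (Fin (w.natDegree + 1)) K[X] :=
  Matrix.of fun κ l => ((dd G L)^[(κ : ℕ)] w).coeff l

lemma mat2_det_ne (hG : Squarefree G) (hL : L ≠ 0) (hdeg : L.natDegree + 1 < G.natDegree)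
    {w : K[X][X]} (hw : w ≠ 0) : (mat2 G L w).det ≠ 0 := by
  classical
  intro h0
  obtain ⟨c, hc, hMc⟩ := Matrix.exists_mulVec_eq_zero_iff.mpr h0
  -- the functional
  let lam : K[X][X] →ₗ[K[X]] K[X] :=
    ∑ l : Fin (w.natDegree + 1), c l • lcoeff K[X] (l : ℕ)
  have hlam : ∀ q : K[X][X], lam q = ∑ l : Fin (w.natDegree + 1), c l * q.coeff l := by
    intro q
    simp [lam, LinearMap.sum_apply]
  have hker : ∀ q ∈ spn G L w w.natDegree, lam q = 0 := by
    intro q hq
    have h1 : spn G L w w.natDegree ≤ LinearMap.ker lam := by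
      refine Submodule.span_le.mpr ?_
      rintro _ ⟨κ, hκ, rfl⟩
      rw [SetLike.mem_coe, LinearMap.mem_ker, hlam]
      have h2 := congrFun hMc ⟨κ, by omega⟩
      rw [Matrix.mulVec, dotProduct] at h2
      simp only [mat2, Matrix.of_apply, Pi.zero_apply] at h2
      rw [← h2]
      exact Finset.sum_congr rfl fun l _ => mul_comm _ _
    exact h1 hq
  apply hc
  have key : ∀ l : ℕ, ∀ hl : l < w.natDegree + 1, c ⟨l, hl⟩ = 0 := by
    intro l
    induction l using Nat.strong_induction_on with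
    | _ l ih =>
    intro hl
    obtain ⟨q, hq, hq0, hqd⟩ := exists_desc hG hL hdeg hw (w.natDegree - l) (by omega)
    have hqd' : q.natDegree = l := by omega
    have h1 := hker q (spn_mono w (by omega) hq)
    rw [hlam, Finset.sum_eq_single ⟨l, hl⟩] at h1
    · rcases mul_eq_zero.mp h1 with h2 | h2
      · exact h2
      · exfalso
        simp only at h2
        rw [← hqd', coeff_natDegree, leadingCoeff_eq_zero] at h2
        exact hq0 h2
    · intro j _ hj
      have hjl : (j : ℕ) ≠ l := fun h => hj (Fin.ext h)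
      rcases lt_or_gt_of_ne hjl with h | h
      · have := ih j h j.2
        rw [show j = ⟨(j : ℕ), j.2⟩ from rfl, this, zero_mul]
      · rw [coeff_eq_zero_of_natDegree_lt (by omega), mul_zero]
    · intro h
      exact absurd (Finset.mem_univ _) h
  funext l
  exact key l l.2

end det2

section ser

variable {K : Type*} [Field K]

/-- Polynomials as series. -/
noncomputable def ph : K[X] →+* PowerSeries K := Polynomial.coeToPowerSeries.ringHom

/-- The operator `2 G d/dX` on series. -/
noncomputable def ee (G : K[X]) (f : PowerSeries K) : PowerSeries K :=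
  ph (2 * G) * PowerSeries.derivative K f

lemma ph_deriv (P : K[X]) : PowerSeries.derivative K (ph P) = ph (derivative P) :=
  PowerSeries.derivative_coe P

lemma ee_eval (G L : K[X]) {v : PowerSeries K}
    (hv : ph (2 * G) * PowerSeries.derivative K v + ph (derivative G) * v = -ph L)
    (q : K[X][X]) : ee G (eval₂ ph v q) = eval₂ ph v (dd G L q) := by
  have h1 := Tw.D_eval₂ (S := PowerSeries K) ph (PowerSeries.derivative K)
    (fun P => ph_deriv P) v q
  unfold ee dd
  rw [h1]
  simp only [eval₂_add, eval₂_mul, eval₂_C, eval₂_X, map_neg, eval₂_neg]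
  linear_combination eval₂ ph v (derivative q) * hv

lemma ee_mul_pow (G L : K[X]) {v U : PowerSeries K}
    (hv : ph (2 * G) * PowerSeries.derivative K v + ph (derivative G) * v = -ph L)
    (hU : PowerSeries.derivative K U = v * U) (j : ℕ) (q : K[X][X]) :
    ee G (eval₂ ph v q * U ^ j) = eval₂ ph v (tt G L j q) * U ^ j := by
  have h1 := ee_eval G L hv q
  unfold ee at h1 ⊢
  rw [Derivation.leibniz, Derivation.leibniz_pow, hU]
  unfold tt
  rw [eval₂_add, ← h1]
  simp only [eval₂_mul, eval₂_C, eval₂_X, map_mul, map_natCast, smul_eq_mul, nsmul_eq_mul,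
    eval₂_natCast]
  rcases Nat.eq_zero_or_pos j with h | h
  · subst h
    simp
  · obtain ⟨i, rfl⟩ := Nat.exists_eq_succ_of_ne_zero h.ne'
    simp only [Nat.succ_eq_add_one, Nat.add_sub_cancel, pow_succ]
    ring

lemma ee_sum (G : K[X]) {ι : Type*} (s : Finset ι) (f : ι → PowerSeries K) :
    ee G (∑ i ∈ s, f i) = ∑ i ∈ s, ee G (f i) := by
  unfold ee
  rw [map_sum, Finset.mul_sum]

lemma ee_dvd {G : K[X]} (hG : X ∣ G) {f : PowerSeries K} {μ : ℕ}
    (hf : (PowerSeries.X : PowerSeries K) ^ μ ∣ f) : (PowerSeries.X : PowerSeries K) ^ μ ∣ ee G f := by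
  obtain ⟨g, rfl⟩ := hf
  obtain ⟨G', rfl⟩ := hG
  unfold ee
  rw [Derivation.leibniz, Derivation.leibniz_pow, PowerSeries.derivative_X]
  have e : (ph (2 * (X * G')) : PowerSeries K) = PowerSeries.X * ph (2 * G') := by
    rw [show (2 * (X * G') : K[X]) = X * (2 * G') by ring, map_mul]
    congr 1
    simp [ph]
  rw [e]
  rcases Nat.eq_zero_or_pos μ with h | h
  · subst h
    simp
  · obtain ⟨i, rfl⟩ := Nat.exists_eq_succ_of_ne_zero h.ne'
    simp only [Nat.succ_eq_add_one, Nat.add_sub_cancel, smul_eq_mul, nsmul_eq_mul]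
    refine ⟨ph (2 * G') * (PowerSeries.X * PowerSeries.derivative K g + ((i + 1 : ℕ) : PowerSeries K) * g), ?_⟩
    rw [pow_succ]
    ring

lemma ee_iter_dvd {G : K[X]} (hG : X ∣ G) {f : PowerSeries K} {μ : ℕ}
    (hf : (PowerSeries.X : PowerSeries K) ^ μ ∣ f) (κ : ℕ) :
    (PowerSeries.X : PowerSeries K) ^ μ ∣ (ee G)^[κ] f := by
  induction κ with
  | zero => exact hf
  | succ κ ih =>
    rw [Function.iterate_succ_apply']
    exact ee_dvd hG ih

/-- Cramer: a common divisor of the entries of `N u` divides `det N * u j`. -/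
lemma dvd_det_mul {R ι : Type*} [CommRing R] [Fintype ι] [DecidableEq ι] (N : Matrix ι ι R)
    (u : ι → R) {x : R} (h : ∀ i, x ∣ N.mulVec u i) (j : ι) : x ∣ N.det * u j := by
  have h1 : (N.adjugate.mulVec (N.mulVec u)) j = N.det * u j := by
    rw [Matrix.mulVec_mulVec, Matrix.adjugate_mul, Matrix.smul_mulVec, Matrix.one_mulVec]
    rfl
  rw [← h1, Matrix.mulVec, dotProduct]
  exact Finset.dvd_sum fun i _ => Dvd.dvd.mul_left (h i) _

lemma le_natDegree_of_dvd {Q : K[X]} (hQ : Q ≠ 0) {μ : ℕ}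
    (h : (PowerSeries.X : PowerSeries K) ^ μ ∣ ph Q) : μ ≤ Q.natDegree := by
  by_contra hlt
  push Not at hlt
  rw [PowerSeries.X_pow_dvd_iff] at h
  have h1 := h _ hlt
  have h2 : PowerSeries.coeff Q.natDegree (ph Q) = Q.coeff Q.natDegree := by
    simp [ph]
  rw [h2, coeff_natDegree, leadingCoeff_eq_zero] at h1
  exact hQ h1

end ser

section fin

variable {K : Type*} [Field K] [CharZero K] {G L : K[X]}

/-- The order of a polynomial in `X` and `v`. -/
lemma order_v (hG : Squarefree G) (hXG : X ∣ G) (hG4 : G.natDegree ≤ 4) (hL4 : L.natDegree ≤ 4)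
    (hL : L ≠ 0) (hdeg : L.natDegree + 1 < G.natDegree) {v : PowerSeries K}
    (hv : ph (2 * G) * PowerSeries.derivative K v + ph (derivative G) * v = -ph L)
    {w : K[X][X]} (hw : w ≠ 0) {A n μ : ℕ} (hwb : Bd A n w)
    (h : (PowerSeries.X : PowerSeries K) ^ μ ∣ eval₂ ph v w) : μ ≤ (n + 1) * (A + 4 * n) := by
  classical
  have hmu : ∀ κ, (ee G)^[κ] (eval₂ ph v w) = eval₂ ph v ((dd G L)^[κ] w) := by
    intro κ
    induction κ with
    | zero => rfl
    | succ κ ih =>
      rw [Function.iterate_succ_apply', Function.iterate_succ_apply', ih, ee_eval G L hv]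
  have hd : ∀ κ, Bd (A + 4 * κ) w.natDegree ((dd G L)^[κ] w) := fun κ =>
    Bd.dd_iter hG4 hL4 (q := w) ⟨le_rfl, hwb.2⟩ κ
  have hdvd := dvd_det_mul ((mat2 G L w).map ph) (fun l => v ^ (l : ℕ))
    (x := (PowerSeries.X : PowerSeries K) ^ μ) (by
      intro κ
      have e : ((mat2 G L w).map ph).mulVec (fun l => v ^ (l : ℕ)) κ =
          eval₂ ph v ((dd G L)^[(κ : ℕ)] w) := by
        rw [eval₂_eq_sum_range' ph (n := w.natDegree + 1)
          (lt_of_le_of_lt (hd κ).1 (Nat.lt_succ_self _)) v, Finset.sum_range]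
        rfl
      rw [e, ← hmu]
      exact ee_iter_dvd hXG h _) 0
  have e2 : ((mat2 G L w).map ph).det = (ph (mat2 G L w).det : PowerSeries K) := by
    rw [RingHom.map_det]; rfl
  rw [e2, Fin.val_zero, pow_zero, mul_one] at hdvd
  refine (le_natDegree_of_dvd (mat2_det_ne hG hL hdeg hw) hdvd).trans ?_
  refine (natDegree_det_le' (mat2 G L w) (fun κ => A + 4 * (κ : ℕ)) fun κ l => ?_).trans ?_
  · exact (hd κ).2 l
  · calc ∑ κ : Fin (w.natDegree + 1), (A + 4 * (κ : ℕ)) ≤
        ∑ κ : Fin (w.natDegree + 1), (A + 4 * n) := by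
          refine Finset.sum_le_sum fun κ _ => ?_
          have := κ.2
          have := hwb.1
          omega
      _ = (w.natDegree + 1) * (A + 4 * n) := by simp
      _ ≤ (n + 1) * (A + 4 * n) := Nat.mul_le_mul_right _ (Nat.succ_le_succ hwb.1)

/-- The order of a polynomial in `X` and `U`. -/
lemma order_U (hG : Squarefree G) (hXG : X ∣ G) (hG4 : G.natDegree ≤ 4) (hL4 : L.natDegree ≤ 4)
    (hL : L ≠ 0) (hdeg : L.natDegree + 1 < G.natDegree) {v U : PowerSeries K}
    (hv : ph (2 * G) * PowerSeries.derivative K v + ph (derivative G) * v = -ph L)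
    (hU : PowerSeries.derivative K U = v * U) (hU1 : PowerSeries.constantCoeff U = 1)
    {P : K[X][X]} (hP : P ≠ 0) {I J μ : ℕ} (hJ : P.natDegree ≤ J)
    (hI : ∀ j, (P.coeff j).natDegree ≤ I)
    (h : (PowerSeries.X : PowerSeries K) ^ μ ∣ eval₂ ph U P) :
    μ ≤ ((J + 1) ^ 2 + 1) * ((J + 1) * (I + 4 * (J + 1)) + 4 * (J + 1) ^ 2) := by
  classical
  set m := P.support.card with hm
  have hmJ : m ≤ J + 1 := by
    have h1 : P.support ⊆ Finset.range (J + 1) := fun j hj => by
      rw [Finset.mem_range]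
      exact lt_of_le_of_lt ((le_natDegree_of_mem_supp j hj).trans hJ) (Nat.lt_succ_self _)
    have := Finset.card_le_card h1
    rwa [Finset.card_range] at this
  have hiter : ∀ (j : ℕ) (q : K[X][X]) (κ : ℕ), (ee G)^[κ] (eval₂ ph v q * U ^ j) =
      eval₂ ph v ((tt G L j)^[κ] q) * U ^ j := by
    intro j q κ
    induction κ with
    | zero => rfl
    | succ κ ih =>
      rw [Function.iterate_succ_apply', Function.iterate_succ_apply', ih, ee_mul_pow G L hv hU]
  have hsum : ∀ κ, (ee G)^[κ] (eval₂ ph U P) =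
      ∑ j : P.support, eval₂ ph v ((tt G L (j : ℕ))^[κ] (C (P.coeff j))) * U ^ (j : ℕ) := by
    intro κ
    have h1 : eval₂ ph U P = ∑ j : P.support, eval₂ ph v (C (P.coeff j)) * U ^ (j : ℕ) := by
      rw [eval₂_eq_sum, Polynomial.sum_def, ← Finset.sum_coe_sort]
      exact Finset.sum_congr rfl fun j _ => by rw [eval₂_C]
    rw [h1]
    have h2 : ∀ (f : P.support → PowerSeries K), (ee G)^[κ] (∑ j, f j) =
        ∑ j, (ee G)^[κ] (f j) := by
      intro f
      induction κ generalizing f with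
      | zero => rfl
      | succ κ ih =>
        rw [Function.iterate_succ_apply, ee_sum, ih]
        rfl
    rw [h2]
    exact Finset.sum_congr rfl fun j _ => hiter _ _ _
  have hdvd : ∀ j : P.support, (PowerSeries.X : PowerSeries K) ^ μ ∣
      ((mat1 G L P).map (eval₂RingHom ph v)).det * U ^ (j : ℕ) := fun j =>
    dvd_det_mul ((mat1 G L P).map (eval₂RingHom ph v)) (fun j => U ^ (j : ℕ)) (by
      intro i
      have e : ((mat1 G L P).map (eval₂RingHom ph v)).mulVec (fun j => U ^ (j : ℕ)) i =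
          (ee G)^[(P.support.equivFin i : ℕ)] (eval₂ ph U P) := by
        rw [hsum]; rfl
      rw [e]
      exact ee_iter_dvd hXG h _) j
  have e2 : ((mat1 G L P).map (eval₂RingHom ph v)).det =
      (eval₂ ph v (mat1 G L P).det : PowerSeries K) := by
    have := RingHom.map_det (eval₂RingHom (ph : K[X] →+* PowerSeries K) v) (mat1 G L P)
    rw [coe_eval₂RingHom] at this
    exact this.symm
  obtain ⟨j₀, hj₀⟩ := nonempty_support_iff.mpr hP
  have hu : IsUnit (U ^ j₀) := by
    apply IsUnit.pow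
    rw [PowerSeries.isUnit_iff_constantCoeff, hU1]
    exact isUnit_one
  have h3 : (PowerSeries.X : PowerSeries K) ^ μ ∣ eval₂ ph v (mat1 G L P).det := by
    have h4 := hdvd ⟨j₀, hj₀⟩
    rw [e2] at h4
    exact (hu.dvd_mul_right).mp h4
  have hb : Bd (m * (I + 4 * m)) (m * m) (mat1 G L P).det := by
    have h5 := Bd.det (A := fun i : P.support => I + 4 * (P.support.equivFin i : ℕ))
      (e := fun i : P.support => (P.support.equivFin i : ℕ)) (mat1 G L P) (by
        intro i j
        exact Bd.tt_iter hG4 hL4 _ (bd_C (hI _)) _)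
    have h6 : ∀ i : P.support, (P.support.equivFin i : ℕ) ≤ m := fun i =>
      (P.support.equivFin i).2.le
    refine h5.mono ?_ ?_
    · refine (Finset.sum_le_card_nsmul _ _ (I + 4 * m) fun i _ => ?_).trans ?_
      · have := h6 i
        omega
      · simp [hm]
    · refine (Finset.sum_le_card_nsmul _ _ m fun i _ => h6 i).trans ?_
      simp [hm]
  refine (order_v hG hXG hG4 hL4 hL hdeg hv (mat1_det_ne hG.ne_zero P) hb h3).trans ?_
  have h7 : m * m ≤ (J + 1) ^ 2 := by rw [sq]; exact Nat.mul_le_mul hmJ hmJ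
  have h8 : m * (I + 4 * m) ≤ (J + 1) * (I + 4 * (J + 1)) :=
    Nat.mul_le_mul hmJ (by omega)
  exact Nat.mul_le_mul (by omega) (by omega)

end fin

open PowerSeries in
theorem order_bound {K : Type*} [Field K] [CharZero K] {a b c : K}
    (hΔ : 4 * a ^ 3 + 27 * b ^ 2 ≠ 0) {v U : K⟦X⟧} (h : IsVU a b c v U) {I J : ℕ}
    {P : Polynomial (Polynomial K)} (hP : P ≠ 0) (hJ : P.natDegree ≤ J)
    (hI : ∀ j, (P.coeff j).natDegree ≤ I) :
    ∃ k ≤ ordB I J, coeff k (P.eval₂ Polynomial.coeToPowerSeries.ringHom U) ≠ 0 := by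
  by_contra hcon
  push Not at hcon
  have hdvd : (PowerSeries.X : PowerSeries K) ^ (ordB I J + 1) ∣ Polynomial.eval₂ ph U P := by
    rw [PowerSeries.X_pow_dvd_iff]
    intro k hk
    exact hcon k (by omega)
  have hφX : ph (Polynomial.X : Polynomial K) = PowerSeries.X := by simp [ph]
  have hφC : ∀ r : K, ph (Polynomial.C r) = PowerSeries.C r := fun r => by simp [ph]
  have hder : Polynomial.derivative
      (Polynomial.X * (1 + Polynomial.C a * Polynomial.X ^ 2 + Polynomial.C b *
        Polynomial.X ^ 3) : Polynomial K) =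
      1 + 3 * Polynomial.C a * Polynomial.X ^ 2 + 4 * Polynomial.C b * Polynomial.X ^ 3 := by
    simp only [Polynomial.derivative_add, Polynomial.derivative_one, Polynomial.derivative_mul,
      Polynomial.derivative_C, Polynomial.derivative_pow, Polynomial.derivative_X, map_ofNat,
      Nat.cast_ofNat]
    ring
  have hd4 : (Polynomial.X * (1 + Polynomial.C a * Polynomial.X ^ 2 + Polynomial.C b *
        Polynomial.X ^ 3) : Polynomial K).natDegree ≤ 4 := by
    have e1 : (Polynomial.X * (1 + Polynomial.C a * Polynomial.X ^ 2 + Polynomial.C b *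
        Polynomial.X ^ 3) : Polynomial K) =
        Polynomial.C b * Polynomial.X ^ 4 + Polynomial.C a * Polynomial.X ^ 3 +
          Polynomial.X := by ring
    rw [e1]
    compute_degree
  have hdeg := natDegree_lt_aux (c := c) hΔ
  have := order_U (squarefree_rF hΔ) (Dvd.intro _ rfl) hd4
    (by omega) (poly_ne_zero_aux (c := c) hΔ) hdeg (v := v) (U := U) ?_ h.der h.one hP hJ hI hdvd
  · unfold ordB at this
    omega
  · rw [hder]
    simp only [map_mul, map_add, map_one, map_pow, map_ofNat, hφX, hφC]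
    linear_combination h.ode

end Pool.Agent.Lib.MP_3550b5_nt.Lg
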