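import Pool.Agent.Lib.MP_3550b5_nt.TP.Log.Defs

/-!
The pair `(v, U)`: existence from `IsSigmaU` (`v = U' / U`, as in the proof of
`transU_of_isSigmaU` in `L2`), base change, uniqueness (coefficient of `X^k` of the equation for
`v`: `(2k+1) v_k = -(2k-1) a v_(k-2) - (2k-2) b v_(k-3) - L_k`; then
`(k+1) U_(k+1) = sum of v_l U_(k-l)`).
-/

namespace Pool.Agent.Lib.MP_3550b5_nt.Lg

open PowerSeries

theorem exists_isVU {K : Type*} [Field K] {a b c : K} {U : K⟦X⟧} (h : IsSigmaU a b c U) :
    ∃ v, IsVU a b c v U := by
  obtain ⟨hU0, hode⟩ := h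
  have hUne : U ≠ 0 := by
    rintro rfl
    rw [map_zero] at hU0
    exact zero_ne_one hU0
  have hinv : U * U⁻¹ = 1 := PowerSeries.mul_inv_cancel U (by rw [hU0]; exact one_ne_zero)
  set D : Derivation K K⟦X⟧ K⟦X⟧ := PowerSeries.derivative K with hD
  set v : K⟦X⟧ := D U * U⁻¹ with hvdef
  have hvU : D U = v * U := by
    rw [hvdef, mul_assoc, mul_comm U⁻¹ U, hinv, mul_one]
  have hDv : D (D U) = D v * U + v * (v * U) := by
    have h1 : D (v * U) = v • D U + U • D v := Derivation.leibniz D v U
    rw [hvU, h1, smul_eq_mul, smul_eq_mul, hvU]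
    ring
  refine ⟨v, hU0, hvU, ?_⟩
  apply mul_right_cancel₀ (pow_ne_zero 2 hUne)
  rw [hDv, hvU] at hode
  rw [← hD]
  linear_combination hode

private theorem der_map {R S : Type*} [CommRing R] [CommRing S] (f : R →+* S) (g : R⟦X⟧) :
    derivative S (PowerSeries.map f g) = PowerSeries.map f (derivative R g) := by
  ext n
  rw [coeff_derivative, coeff_map, coeff_map, coeff_derivative, map_mul, map_add, map_natCast,
    map_one]

theorem IsVU.map {R S : Type*} [CommRing R] [CommRing S] (f : R →+* S) {a b c : R} {v U : R⟦X⟧}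
    (h : IsVU a b c v U) :
    IsVU (f a) (f b) (f c) (PowerSeries.map f v) (PowerSeries.map f U) := by
  refine ⟨?_, ?_, ?_⟩
  · rw [← coeff_zero_eq_constantCoeff_apply, coeff_map, coeff_zero_eq_constantCoeff_apply, h.one,
      map_one]
  · rw [der_map, h.der, map_mul]
  · have h1 := congrArg (PowerSeries.map f) h.ode
    simp only [map_add, map_mul, map_pow, map_ofNat, map_one, map_zero, PowerSeries.map_X,
      PowerSeries.map_C] at h1
    rw [der_map]
    exact h1

private theorem X_der {K : Type*} [Field K] (k : ℕ) (g : K⟦X⟧) :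
    X * derivative K (X ^ k * g) = X ^ k * ((k : K⟦X⟧) * g + X * derivative K g) := by
  rcases k with _ | k
  · simp
  · have h1 : derivative K (X ^ (k + 1) * g) =
        X ^ (k + 1) • derivative K g + g • derivative K (X ^ (k + 1)) :=
      Derivation.leibniz (derivative K) _ _
    have h2 : derivative K (X ^ (k + 1) : K⟦X⟧) = ((k + 1 : ℕ) : K⟦X⟧) * X ^ k := by
      have h3 := Derivation.leibniz_pow (derivative K) (X : K⟦X⟧) (k + 1)
      rw [h3]
      simp [nsmul_eq_mul, derivative_X]
    rw [h1, h2, smul_eq_mul, smul_eq_mul]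
    ring

private theorem zero_of_step {K : Type*} [Field K] (w : K⟦X⟧)
    (h : ∀ k : ℕ, ∀ g : K⟦X⟧, w = X ^ k * g → constantCoeff g = 0) : w = 0 := by
  have hall : ∀ k : ℕ, coeff k w = 0 := by
    intro k
    induction k using Nat.strong_induction_on with
    | _ k ih =>
      obtain ⟨g, hg⟩ := (X_pow_dvd_iff (R := K) (n := k) (φ := w)).mpr ih
      have h0 := h k g hg
      rw [hg, coeff_X_pow_mul', if_pos le_rfl, Nat.sub_self, coeff_zero_eq_constantCoeff_apply, h0]
  ext k
  rw [hall k, map_zero]

theorem IsVU.unique {K : Type*} [Field K] [CharZero K] {a b c : K} {v U v' U' : K⟦X⟧}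
    (h : IsVU a b c v U) (h' : IsVU a b c v' U') : U = U' := by
  have hX : (X : K⟦X⟧) ≠ 0 := X_ne_zero
  have hv : v = v' := by
    have h0 : v - v' = 0 := by
      apply zero_of_step
      intro k g hg
      have e1 : 2 * (X * (1 + C a * X ^ 2 + C b * X ^ 3)) * derivative K (v - v') +
          (1 + 3 * C a * X ^ 2 + 4 * C b * X ^ 3) * (v - v') = 0 := by
        rw [map_sub]
        linear_combination h.ode - h'.ode
      have e2 : X ^ k * (2 * (1 + C a * X ^ 2 + C b * X ^ 3) *
          ((k : K⟦X⟧) * g + X * derivative K g) +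
          (1 + 3 * C a * X ^ 2 + 4 * C b * X ^ 3) * g) = 0 := by
        rw [hg] at e1
        have h2 := X_der k g
        linear_combination e1 - 2 * (1 + C a * X ^ 2 + C b * X ^ 3) * h2
      have e3 := (mul_eq_zero.mp e2).resolve_left (pow_ne_zero _ hX)
      have e4 := congrArg (constantCoeff (R := K)) e3
      simp only [map_add, map_mul, map_pow, map_ofNat, map_one, map_zero, constantCoeff_X,
        map_natCast, constantCoeff_C] at e4
      have e5 : (2 * (k : K) + 1) * constantCoeff g = 0 := by
        rw [← e4]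
        ring
      refine (mul_eq_zero.mp e5).resolve_left ?_
      have : ((2 * k + 1 : ℕ) : K) ≠ 0 := Nat.cast_ne_zero.mpr (Nat.succ_ne_zero (2 * k))
      push_cast at this
      exact this
    exact sub_eq_zero.mp h0
  subst hv
  have h0 : U - U' = 0 := by
    apply zero_of_step
    intro k g hg
    rcases Nat.eq_zero_or_pos k with hk | hk
    · subst hk
      rw [pow_zero, one_mul] at hg
      rw [← hg, map_sub, h.one, h'.one, sub_self]
    · have e1 : derivative K (U - U') = v * (U - U') := by
        rw [map_sub, h.der, h'.der]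
        ring
      have e2 : X ^ k * ((k : K⟦X⟧) * g + X * derivative K g - X * v * g) = 0 := by
        rw [hg] at e1
        have h2 := X_der k g
        linear_combination X * e1 - h2
      have e3 := (mul_eq_zero.mp e2).resolve_left (pow_ne_zero _ hX)
      have e4 := congrArg (constantCoeff (R := K)) e3
      simp only [map_add, map_sub, map_mul, map_zero, constantCoeff_X, map_natCast, zero_mul,
        add_zero, sub_zero] at e4
      refine (mul_eq_zero.mp e4).resolve_left ?_
      exact_mod_cast hk.ne'
  exact sub_eq_zero.mp h0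

end Pool.Agent.Lib.MP_3550b5_nt.Lg
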