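import Pool.Agent.Lib.MP_3550b5_nt.TP.Log.Defs

/-!
T5: the universal pair `(v, U)` over `ℚ[c]` and the sizes of its coefficients.

Coefficient of `X^k` of the equation for `v`:
`(2k+1) v_k = -(2k-1) a v_(k-2) - (2k-2) b v_(k-3) - L_k` (`L_0 = c`, `L_1 = a`, `L_2 = 2b`), and
`k U_k = ∑_(l<k) v_l U_(k-1-l)`. In `ℚ[c]`: `W_k = (2k+1)! v_k` is integral of degree `≤ k + 1` and
length `≤ (2k+1)! K^(k+1)` (`K` large in terms of `a`, `b`); `Y_k = (2k)! U_k` satisfies
`Y_k = 2 ∑_(l<k) binom (2k-1) (2l+1) W_l Y_(k-1-l)`, so it is integral of degree `≤ k` and of length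
`≤ (2k)! K^k` with the same `K`. (Then `v_k` has degree `≤ 1` in `c`, not needed.)
Products: `(2k)! (f g)_k = ∑ binom (2k) (2l) ((2l)! f_l) ((2(k-l))! g_(k-l))` and
`∑ T₁^l T₂^(k-l) ≤ (T₁ + T₂)^k`.
-/

namespace Pool.Agent.Lib.MP_3550b5_nt.Lg

open PowerSeries

theorem coeff_le_l1 (Z : Polynomial ℤ) (j : ℕ) : |Z.coeff j| ≤ l1 Z := by
  by_cases h : j ∈ Z.support
  · have h1 := Finset.single_le_sum (f := fun i => (Z.coeff i).natAbs)
      (fun _ _ => Nat.zero_le _) h
    have h2 : ((Z.coeff j).natAbs : ℤ) ≤ (l1 Z : ℤ) := by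
      unfold l1
      exact_mod_cast h1
    rwa [Int.natCast_natAbs] at h2
  · rw [Polynomial.notMem_support_iff.mp h]
    simp

private theorem un_l1_eq {Z : Polynomial ℤ} {s : Finset ℕ} (h : Z.support ⊆ s) :
    l1 Z = ∑ i ∈ s, (Z.coeff i).natAbs := by
  unfold l1
  refine Finset.sum_subset h ?_
  intro x _ hx
  rw [Polynomial.notMem_support_iff.mp hx]
  rfl

private theorem un_l1_zero : l1 0 = 0 := by
  simp [l1]

private theorem un_l1_mono (n : ℕ) (a : ℤ) : l1 (Polynomial.monomial n a) ≤ a.natAbs := by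
  rw [un_l1_eq (Polynomial.support_monomial_subset n a)]
  simp

private theorem un_l1_C (a : ℤ) : l1 (Polynomial.C a) ≤ a.natAbs := by
  have h := un_l1_mono 0 a
  rwa [Polynomial.monomial_zero_left] at h

private theorem un_l1_X : l1 (Polynomial.X : Polynomial ℤ) ≤ 1 := by
  have h := un_l1_mono 1 1
  rwa [Polynomial.monomial_one_one_eq_X] at h

theorem l1_add (Z W : Polynomial ℤ) : l1 (Z + W) ≤ l1 Z + l1 W := by
  classical
  rw [un_l1_eq (Polynomial.support_add (p := Z) (q := W)),
    un_l1_eq (Finset.subset_union_left (s₁ := Z.support) (s₂ := W.support)),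
    un_l1_eq (Finset.subset_union_right (s₁ := Z.support) (s₂ := W.support)),
    ← Finset.sum_add_distrib]
  refine Finset.sum_le_sum fun i _ => ?_
  rw [Polynomial.coeff_add]
  exact Int.natAbs_add_le _ _

theorem l1_sum {ι : Type*} (s : Finset ι) (Z : ι → Polynomial ℤ) :
    l1 (∑ i ∈ s, Z i) ≤ ∑ i ∈ s, l1 (Z i) := by
  classical
  induction s using Finset.induction_on with
  | empty => simp [un_l1_zero]
  | insert i s hi ih =>
    rw [Finset.sum_insert hi, Finset.sum_insert hi]
    exact (l1_add _ _).trans (Nat.add_le_add_left ih _)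

theorem l1_mul (Z W : Polynomial ℤ) : l1 (Z * W) ≤ l1 Z * l1 W := by
  have h : Z * W = ∑ i ∈ Z.support, ∑ j ∈ W.support,
      Polynomial.monomial (i + j) (Z.coeff i * W.coeff j) := by
    conv_lhs => rw [Polynomial.as_sum_support Z, Polynomial.as_sum_support W]
    rw [Finset.sum_mul_sum]
    simp only [Polynomial.monomial_mul_monomial]
  rw [h]
  refine (l1_sum _ _).trans ?_
  have h2 : l1 Z * l1 W = ∑ i ∈ Z.support, ∑ j ∈ W.support,
      (Z.coeff i).natAbs * (W.coeff j).natAbs := by
    unfold l1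
    rw [Finset.sum_mul_sum]
  rw [h2]
  refine Finset.sum_le_sum fun i _ => (l1_sum _ _).trans (Finset.sum_le_sum fun j _ => ?_)
  refine (un_l1_mono _ _).trans ?_
  rw [Int.natAbs_mul]

theorem l1_prod {ι : Type*} (s : Finset ι) (Z : ι → Polynomial ℤ) :
    l1 (∏ i ∈ s, Z i) ≤ ∏ i ∈ s, l1 (Z i) := by
  classical
  induction s using Finset.induction_on with
  | empty =>
    have h := un_l1_C 1
    simpa using h
  | insert i s hi ih =>
    rw [Finset.prod_insert hi, Finset.prod_insert hi]
    exact (l1_mul _ _).trans (Nat.mul_le_mul_left _ ih)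

theorem l1_smul (n : ℤ) (Z : Polynomial ℤ) : l1 (n • Z) ≤ n.natAbs * l1 Z := by
  have h : n • Z = Polynomial.C n * Z := by
    rw [← Polynomial.smul_eq_C_mul]
  rw [h]
  exact (l1_mul _ _).trans (Nat.mul_le_mul_right _ (un_l1_C n))

theorem inA_one (T : ℕ) : InA T 1 := by
  intro k
  rcases Nat.eq_zero_or_pos k with rfl | hk
  · refine ⟨1, by simp, by simp, ?_⟩
    have h := un_l1_C 1
    simpa using h
  · refine ⟨0, ?_, by simp, by simp [un_l1_zero]⟩
    rw [PowerSeries.coeff_one, if_neg hk.ne']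
    simp

theorem inA_X (T : ℕ) (hT : 1 ≤ T) : InA T X := by
  intro k
  by_cases hk : k = 1
  · subst hk
    refine ⟨Polynomial.C 2, ?_, by simp, ?_⟩
    · rw [PowerSeries.coeff_one_X, Polynomial.map_C, mul_one]
      simp [Nat.factorial]
    · refine (un_l1_C 2).trans ?_
      simp only [Nat.factorial]
      norm_num
      omega
  · refine ⟨0, ?_, by simp, by simp [un_l1_zero]⟩
    rw [PowerSeries.coeff_X, if_neg hk]
    simp

theorem InA.mul {T₁ T₂ : ℕ} {f g : (Polynomial ℚ)⟦X⟧} (hf : InA T₁ f) (hg : InA T₂ g) :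
    InA (T₁ + T₂) (f * g) := by
  intro k
  choose P hP1 hP2 hP3 using hf
  choose Q hQ1 hQ2 hQ3 using hg
  refine ⟨∑ x ∈ Finset.HasAntidiagonal.antidiagonal k,
    (((2 * k).choose (2 * x.1) : ℕ) : ℤ) • (P x.1 * Q x.2), ?_, ?_, ?_⟩
  · rw [PowerSeries.coeff_mul, Finset.mul_sum, Polynomial.map_sum]
    refine Finset.sum_congr rfl fun x hx => ?_
    have hxk : x.1 + x.2 = k := Finset.HasAntidiagonal.mem_antidiagonal.mp hx
    have hch : ((2 * k).factorial : ℚ) =
        ((2 * k).choose (2 * x.1) : ℚ) * ((2 * x.1).factorial : ℚ) * ((2 * x.2).factorial : ℚ) := by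
      have h := Nat.choose_mul_factorial_mul_factorial (n := 2 * k) (k := 2 * x.1) (by omega)
      have h2 : 2 * k - 2 * x.1 = 2 * x.2 := by omega
      rw [h2] at h
      exact_mod_cast h.symm
    rw [Polynomial.smul_eq_C_mul, Polynomial.map_mul, Polynomial.map_mul, hP1, hQ1, hch]
    simp only [Polynomial.map_C, map_mul, Int.coe_castRingHom, Int.cast_natCast]
    ring
  · refine Polynomial.natDegree_sum_le_of_forall_le _ _ fun x hx => ?_
    have hxk : x.1 + x.2 = k := Finset.HasAntidiagonal.mem_antidiagonal.mp hx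
    refine (Polynomial.natDegree_smul_le _ _).trans ?_
    refine Polynomial.natDegree_mul_le.trans ?_
    have h1 := hP2 x.1
    have h2 := hQ2 x.2
    omega
  · refine (l1_sum _ _).trans ?_
    have hpt : ∀ x ∈ Finset.HasAntidiagonal.antidiagonal k,
        l1 ((((2 * k).choose (2 * x.1) : ℕ) : ℤ) • (P x.1 * Q x.2)) ≤
          (2 * k).factorial * (k.choose x.1 * (T₁ ^ x.1 * T₂ ^ x.2)) := by
      intro x hx
      have hxk : x.1 + x.2 = k := Finset.HasAntidiagonal.mem_antidiagonal.mp hx
      have hch : (2 * k).factorial =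
          (2 * k).choose (2 * x.1) * (2 * x.1).factorial * (2 * x.2).factorial := by
        have h := Nat.choose_mul_factorial_mul_factorial (n := 2 * k) (k := 2 * x.1) (by omega)
        have h2 : 2 * k - 2 * x.1 = 2 * x.2 := by omega
        rw [h2] at h
        exact h.symm
      refine (l1_smul _ _).trans ?_
      rw [Int.natAbs_natCast]
      have h3 : l1 (P x.1 * Q x.2) ≤
          ((2 * x.1).factorial * T₁ ^ x.1) * ((2 * x.2).factorial * T₂ ^ x.2) :=
        (l1_mul _ _).trans (Nat.mul_le_mul (hP3 _) (hQ3 _))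
      have h4 : 1 ≤ k.choose x.1 := Nat.choose_pos (by omega)
      calc (2 * k).choose (2 * x.1) * l1 (P x.1 * Q x.2)
          ≤ (2 * k).choose (2 * x.1) *
            (((2 * x.1).factorial * T₁ ^ x.1) * ((2 * x.2).factorial * T₂ ^ x.2)) :=
            Nat.mul_le_mul_left _ h3
        _ = (2 * k).factorial * (1 * (T₁ ^ x.1 * T₂ ^ x.2)) := by rw [hch]; ring
        _ ≤ (2 * k).factorial * (k.choose x.1 * (T₁ ^ x.1 * T₂ ^ x.2)) :=
            Nat.mul_le_mul_left _ (Nat.mul_le_mul_right _ h4)
    refine (Finset.sum_le_sum hpt).trans ?_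
    rw [← Finset.mul_sum]
    refine Nat.mul_le_mul_left _ ?_
    rw [(Commute.all T₁ T₂).add_pow']
    refine le_of_eq (Finset.sum_congr rfl fun x _ => ?_)
    rw [smul_eq_mul]

theorem InA.pow {T : ℕ} {f : (Polynomial ℚ)⟦X⟧} (hf : InA T f) (n : ℕ) : InA (n * T) (f ^ n) := by
  induction n with
  | zero =>
    rw [pow_zero]
    exact inA_one _
  | succ n ih =>
    rw [pow_succ, Nat.succ_mul]
    exact ih.mul hf

/-- The coefficients of `v`. -/
private noncomputable def unV (a b : ℤ) : ℕ → Polynomial ℚ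
  | 0 => -Polynomial.X
  | 1 => Polynomial.C (-(a : ℚ) / 3)
  | 2 => Polynomial.C ((3 / 5 : ℚ) * a) * Polynomial.X + Polynomial.C (-(2 / 5 : ℚ) * b)
  | (k + 3) => Polynomial.C (-((2 * k + 5 : ℚ) * a / (2 * k + 7 : ℚ))) * unV a b (k + 1) +
      Polynomial.C (-((2 * k + 4 : ℚ) * b / (2 * k + 7 : ℚ))) * unV a b k

/-- The coefficients of `U`. -/
private noncomputable def unU (v : ℕ → Polynomial ℚ) : ℕ → Polynomial ℚ
  | 0 => 1
  | (k + 1) => Polynomial.C (1 / ((k : ℚ) + 1)) * ∑ l : Fin (k + 1), v l * unU v (k - l)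
  decreasing_by omega

private theorem unU_succ (v : ℕ → Polynomial ℚ) (k : ℕ) : unU v (k + 1) =
    Polynomial.C (1 / ((k : ℚ) + 1)) * ∑ l ∈ Finset.range (k + 1), v l * unU v (k - l) := by
  rw [unU, Finset.sum_range]

private theorem unW (a b : ℤ) {K : ℕ} (hK : a.natAbs + 2 * b.natAbs + 2 ≤ K) :
    ∀ k : ℕ, ∃ Z : Polynomial ℤ,
      Z.map (Int.castRingHom ℚ) = Polynomial.C ((2 * k + 1).factorial : ℚ) * unV a b k ∧
      Z.natDegree ≤ 1 ∧ l1 Z ≤ (2 * k + 1).factorial * K ^ (k + 1)
  | 0 => by
    refine ⟨(-1 : ℤ) • Polynomial.X, ?_, ?_, ?_⟩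
    · rw [unV]
      simp
    · refine (Polynomial.natDegree_smul_le _ _).trans ?_
      simp
    · refine (l1_smul _ _).trans ?_
      have h := un_l1_X
      simp only [Nat.factorial, zero_add, pow_one, Int.natAbs_neg, Int.natAbs_one,
        one_mul]
      omega
  | 1 => by
    refine ⟨Polynomial.C (-2 * a), ?_, ?_, ?_⟩
    · rw [unV, Polynomial.map_C, ← Polynomial.C_mul]
      congr 1
      simp only [Nat.factorial, eq_intCast]
      push_cast
      ring
    · exact (Polynomial.natDegree_C _).le.trans (Nat.zero_le _)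
    · refine (un_l1_C _).trans ?_
      rw [Int.natAbs_mul]
      have h1 : a.natAbs ≤ K := by omega
      have h2 : K ≤ K ^ 2 := Nat.le_self_pow (by norm_num) K
      simp only [Nat.factorial]
      norm_num
      omega
  | 2 => by
    refine ⟨(72 * a) • Polynomial.X + Polynomial.C (-48 * b), ?_, ?_, ?_⟩
    · rw [unV, Polynomial.map_add, Polynomial.map_C, Polynomial.smul_eq_C_mul,
        Polynomial.map_mul, Polynomial.map_C, Polynomial.map_X, mul_add, ← mul_assoc,
        ← Polynomial.C_mul, ← Polynomial.C_mul]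
      congr 3
      · simp only [Nat.factorial, eq_intCast]
        push_cast
        ring
      · simp only [Nat.factorial, eq_intCast]
        push_cast
        ring
    · refine (Polynomial.natDegree_add_le _ _).trans (max_le ?_
        ((Polynomial.natDegree_C _).le.trans (Nat.zero_le _)))
      refine (Polynomial.natDegree_smul_le _ _).trans ?_
      simp
    · refine (l1_add _ _).trans ?_
      have h1 := l1_smul (72 * a) Polynomial.X
      have h2 := un_l1_C (-48 * b)
      have h3 := un_l1_X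
      rw [Int.natAbs_mul] at h1 h2
      have h4 : K ≤ K ^ 3 := Nat.le_self_pow (by norm_num) K
      have h5 : (Int.natAbs 72 * a.natAbs) * l1 Polynomial.X ≤ Int.natAbs 72 * a.natAbs * 1 :=
        Nat.mul_le_mul_left _ h3
      have h6 : Int.natAbs 72 = 72 := rfl
      have h7 : Int.natAbs (-48) = 48 := rfl
      rw [h6] at h1 h5
      rw [h7] at h2
      have h8 : (2 * 2 + 1).factorial = 120 := rfl
      rw [h8]
      have h9 : K ^ (2 + 1) = K ^ 3 := rfl
      rw [h9]
      omega
  | (k + 3) => by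
    obtain ⟨Z1, h11, h12, h13⟩ := unW a b hK (k + 1)
    obtain ⟨Z0, h01, h02, h03⟩ := unW a b hK k
    have g6 : (2 * k + 6).factorial = (2 * k + 6) * (2 * k + 5).factorial :=
      Nat.factorial_succ (2 * k + 5)
    have g5 : (2 * k + 5).factorial = (2 * k + 5) * (2 * k + 4).factorial :=
      Nat.factorial_succ (2 * k + 4)
    have g4 : (2 * k + 4).factorial = (2 * k + 4) * (2 * k + 3).factorial :=
      Nat.factorial_succ (2 * k + 3)
    have g3 : (2 * k + 3).factorial = (2 * k + 3) * (2 * k + 2).factorial :=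
      Nat.factorial_succ (2 * k + 2)
    have g2 : (2 * k + 2).factorial = (2 * k + 2) * (2 * k + 1).factorial :=
      Nat.factorial_succ (2 * k + 1)
    have hf1 : (2 * (k + 1) + 1).factorial * ((2 * k + 4) * (2 * k + 5) * (2 * k + 6)) =
        (2 * k + 6).factorial := by
      rw [show 2 * (k + 1) + 1 = 2 * k + 3 by ring, g6, g5, g4]
      generalize (2 * k + 3).factorial = F
      ring
    have hf0 : (2 * k + 1).factorial *
        ((2 * k + 2) * (2 * k + 3) * (2 * k + 4) * (2 * k + 5) * (2 * k + 6)) =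
        (2 * k + 6).factorial := by
      rw [g6, g5, g4, g3, g2]
      generalize (2 * k + 1).factorial = F
      ring
    have hf2 : (2 * (k + 3) + 1).factorial = (2 * k + 7) * (2 * k + 6).factorial := by
      rw [show 2 * (k + 3) + 1 = (2 * k + 6) + 1 by ring, Nat.factorial_succ]
    refine ⟨(-(((2 * k + 4) * (2 * k + 5) * (2 * k + 6) * (2 * k + 5) : ℕ) : ℤ) * a) • Z1 +
      (-(((2 * k + 2) * (2 * k + 3) * (2 * k + 4) * (2 * k + 5) * (2 * k + 6) *
        (2 * k + 4) : ℕ) : ℤ) * b) • Z0, ?_, ?_, ?_⟩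
    · have hq : (2 * (k : ℚ) + 7) ≠ 0 := by positivity
      have e1 : ((2 * k + 6).factorial : ℚ) = ((2 * (k + 1) + 1).factorial : ℚ) *
          ((2 * k + 4) * (2 * k + 5) * (2 * k + 6)) := by
        exact_mod_cast hf1.symm
      have e0 : ((2 * k + 6).factorial : ℚ) = ((2 * k + 1).factorial : ℚ) *
          ((2 * k + 2) * (2 * k + 3) * (2 * k + 4) * (2 * k + 5) * (2 * k + 6)) := by
        exact_mod_cast hf0.symm
      have e2 : ((2 * (k + 3) + 1).factorial : ℚ) = (2 * k + 7) * ((2 * k + 6).factorial : ℚ) := by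
        exact_mod_cast hf2
      have c1 : ((2 * (k + 3) + 1).factorial : ℚ) *
          (-((2 * (k : ℚ) + 5) * a / (2 * (k : ℚ) + 7))) =
          (Int.castRingHom ℚ) (-(((2 * k + 4) * (2 * k + 5) * (2 * k + 6) * (2 * k + 5) : ℕ) : ℤ) *
            a) * ((2 * (k + 1) + 1).factorial : ℚ) := by
        rw [e2, e1, eq_intCast]
        push_cast
        field_simp
      have c0 : ((2 * (k + 3) + 1).factorial : ℚ) *
          (-((2 * (k : ℚ) + 4) * b / (2 * (k : ℚ) + 7))) =
          (Int.castRingHom ℚ) (-(((2 * k + 2) * (2 * k + 3) * (2 * k + 4) * (2 * k + 5) *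
            (2 * k + 6) * (2 * k + 4) : ℕ) : ℤ) * b) * ((2 * k + 1).factorial : ℚ) := by
        rw [e2, e0, eq_intCast]
        push_cast
        field_simp
      rw [unV, Polynomial.map_add, Polynomial.smul_eq_C_mul, Polynomial.smul_eq_C_mul,
        Polynomial.map_mul, Polynomial.map_mul, Polynomial.map_C, Polynomial.map_C, h11, h01,
        mul_add (Polynomial.C ((2 * (k + 3) + 1).factorial : ℚ)), ← mul_assoc, ← mul_assoc,
        ← mul_assoc (Polynomial.C ((2 * (k + 3) + 1).factorial : ℚ)),
        ← mul_assoc (Polynomial.C ((2 * (k + 3) + 1).factorial : ℚ)), ← Polynomial.C_mul,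
        ← Polynomial.C_mul, ← Polynomial.C_mul, ← Polynomial.C_mul, c1, c0]
    · refine (Polynomial.natDegree_add_le _ _).trans (max_le ?_ ?_)
      · exact (Polynomial.natDegree_smul_le _ _).trans h12
      · exact (Polynomial.natDegree_smul_le _ _).trans h02
    · refine (l1_add _ _).trans ((Nat.add_le_add (l1_smul _ _) (l1_smul _ _)).trans ?_)
      rw [Int.natAbs_mul, Int.natAbs_mul, Int.natAbs_neg, Int.natAbs_neg, Int.natAbs_natCast,
        Int.natAbs_natCast]
      have hab : a.natAbs + b.natAbs ≤ K := by omega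
      have hK1 : 1 ≤ K := by omega
      calc (2 * k + 4) * (2 * k + 5) * (2 * k + 6) * (2 * k + 5) * a.natAbs * l1 Z1 +
          (2 * k + 2) * (2 * k + 3) * (2 * k + 4) * (2 * k + 5) * (2 * k + 6) * (2 * k + 4) *
            b.natAbs * l1 Z0
          ≤ (2 * k + 4) * (2 * k + 5) * (2 * k + 6) * (2 * k + 5) * a.natAbs *
              ((2 * (k + 1) + 1).factorial * K ^ (k + 1 + 1)) +
            (2 * k + 2) * (2 * k + 3) * (2 * k + 4) * (2 * k + 5) * (2 * k + 6) * (2 * k + 4) *
              b.natAbs * ((2 * k + 1).factorial * K ^ (k + 1)) :=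
            Nat.add_le_add (Nat.mul_le_mul_left _ h13) (Nat.mul_le_mul_left _ h03)
        _ = ((2 * (k + 1) + 1).factorial * ((2 * k + 4) * (2 * k + 5) * (2 * k + 6))) *
              ((2 * k + 5) * a.natAbs * K ^ (k + 2)) +
            ((2 * k + 1).factorial *
              ((2 * k + 2) * (2 * k + 3) * (2 * k + 4) * (2 * k + 5) * (2 * k + 6))) *
              ((2 * k + 4) * b.natAbs * K ^ (k + 1)) := by ring
        _ = (2 * k + 6).factorial * ((2 * k + 5) * a.natAbs * K ^ (k + 2) +
              (2 * k + 4) * b.natAbs * K ^ (k + 1)) := by rw [hf1, hf0]; ring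
        _ ≤ (2 * k + 6).factorial * ((2 * k + 7) * K ^ (k + 4)) := by
            refine Nat.mul_le_mul_left _ ?_
            have hp1 : K ^ (k + 1) ≤ K ^ (k + 3) := Nat.pow_le_pow_right hK1 (by omega)
            have hp2 : K ^ (k + 2) ≤ K ^ (k + 3) := Nat.pow_le_pow_right hK1 (by omega)
            calc (2 * k + 5) * a.natAbs * K ^ (k + 2) + (2 * k + 4) * b.natAbs * K ^ (k + 1)
                ≤ (2 * k + 7) * a.natAbs * K ^ (k + 3) + (2 * k + 7) * b.natAbs * K ^ (k + 3) := by
                  refine Nat.add_le_add ?_ ?_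
                  · exact Nat.mul_le_mul (Nat.mul_le_mul_right _ (by omega)) hp2
                  · exact Nat.mul_le_mul (Nat.mul_le_mul_right _ (by omega)) hp1
              _ = (2 * k + 7) * ((a.natAbs + b.natAbs) * K ^ (k + 3)) := by ring
              _ ≤ (2 * k + 7) * (K * K ^ (k + 3)) :=
                  Nat.mul_le_mul_left _ (Nat.mul_le_mul_right _ hab)
              _ = (2 * k + 7) * K ^ (k + 4) := by ring
        _ = (2 * (k + 3) + 1).factorial * K ^ (k + 3 + 1) := by rw [hf2]; ring

private theorem unY (a b : ℤ) {K : ℕ} (hK : a.natAbs + 2 * b.natAbs + 2 ≤ K) (k : ℕ) :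
    ∃ Z : Polynomial ℤ,
      Z.map (Int.castRingHom ℚ) = Polynomial.C ((2 * k).factorial : ℚ) * unU (unV a b) k ∧
      Z.natDegree ≤ k ∧ l1 Z ≤ (2 * k).factorial * K ^ k := by
  induction k using Nat.strong_induction_on with
  | _ k ih =>
    rcases k with _ | k
    · refine ⟨1, ?_, by simp, ?_⟩
      · rw [unU]
        simp
      · have h := un_l1_C 1
        simpa using h
    · choose! Y hY1 hY2 hY3 using ih
      choose W hW1 hW2 hW3 using unW a b hK
      refine ⟨∑ l ∈ Finset.range (k + 1),
        ((2 * (2 * k + 1).choose (2 * l + 1) : ℕ) : ℤ) • (W l * Y (k - l)), ?_, ?_, ?_⟩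
      · rw [unU_succ, Polynomial.map_sum, Finset.mul_sum, Finset.mul_sum]
        refine Finset.sum_congr rfl fun l hl => ?_
        have hlk : l ≤ k := Nat.lt_succ_iff.mp (Finset.mem_range.mp hl)
        have hch : (2 * (k + 1)).factorial =
            (k + 1) * ((2 * (2 * k + 1).choose (2 * l + 1)) * (2 * l + 1).factorial *
              (2 * (k - l)).factorial) := by
          have h := Nat.choose_mul_factorial_mul_factorial (n := 2 * k + 1) (k := 2 * l + 1)
            (by omega)
          have h2 : 2 * k + 1 - (2 * l + 1) = 2 * (k - l) := by omega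
          rw [h2] at h
          rw [show 2 * (k + 1) = (2 * k + 1) + 1 by ring, Nat.factorial_succ, ← h]
          ring
        have hchq : ((2 * (k + 1)).factorial : ℚ) * (1 / ((k : ℚ) + 1)) =
            ((2 * (2 * k + 1).choose (2 * l + 1) : ℕ) : ℚ) * ((2 * l + 1).factorial : ℚ) *
              ((2 * (k - l)).factorial : ℚ) := by
          have hk0 : ((k : ℚ) + 1) ≠ 0 := by positivity
          rw [hch]
          push_cast
          field_simp
        rw [Polynomial.smul_eq_C_mul, Polynomial.map_mul, Polynomial.map_mul, hW1,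
          hY1 (k - l) (by omega), Polynomial.map_C]
        calc Polynomial.C ((Int.castRingHom ℚ)
              ((2 * (2 * k + 1).choose (2 * l + 1) : ℕ) : ℤ)) *
              (Polynomial.C ((2 * l + 1).factorial : ℚ) * unV a b l *
                (Polynomial.C ((2 * (k - l)).factorial : ℚ) * unU (unV a b) (k - l)))
            = Polynomial.C (((2 * (2 * k + 1).choose (2 * l + 1) : ℕ) : ℚ) *
                ((2 * l + 1).factorial : ℚ) * ((2 * (k - l)).factorial : ℚ)) *
                (unV a b l * unU (unV a b) (k - l)) := by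
              simp only [Polynomial.C_mul, eq_intCast, Int.cast_natCast]
              ring
          _ = Polynomial.C ((2 * (k + 1)).factorial : ℚ) *
                (Polynomial.C (1 / ((k : ℚ) + 1)) * (unV a b l * unU (unV a b) (k - l))) := by
              rw [← hchq, Polynomial.C_mul]
              ring
      · refine Polynomial.natDegree_sum_le_of_forall_le _ _ fun l hl => ?_
        have hlk : l ≤ k := Nat.lt_succ_iff.mp (Finset.mem_range.mp hl)
        refine (Polynomial.natDegree_smul_le _ _).trans ?_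
        refine Polynomial.natDegree_mul_le.trans ?_
        have h1 := hW2 l
        have h2 := hY2 (k - l) (by omega)
        omega
      · refine (l1_sum _ _).trans ?_
        have hpt : ∀ l ∈ Finset.range (k + 1),
            l1 (((2 * (2 * k + 1).choose (2 * l + 1) : ℕ) : ℤ) • (W l * Y (k - l))) ≤
              2 * ((2 * k + 1).factorial * K ^ (k + 1)) := by
          intro l hl
          have hlk : l ≤ k := Nat.lt_succ_iff.mp (Finset.mem_range.mp hl)
          have h := Nat.choose_mul_factorial_mul_factorial (n := 2 * k + 1) (k := 2 * l + 1)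
            (by omega)
          have h2 : 2 * k + 1 - (2 * l + 1) = 2 * (k - l) := by omega
          rw [h2] at h
          refine (l1_smul _ _).trans ?_
          rw [Int.natAbs_natCast]
          have h3 : l1 (W l * Y (k - l)) ≤ ((2 * l + 1).factorial * K ^ (l + 1)) *
              ((2 * (k - l)).factorial * K ^ (k - l)) :=
            (l1_mul _ _).trans (Nat.mul_le_mul (hW3 _) (hY3 _ (by omega)))
          calc (2 * (2 * k + 1).choose (2 * l + 1)) * l1 (W l * Y (k - l))
              ≤ (2 * (2 * k + 1).choose (2 * l + 1)) * (((2 * l + 1).factorial * K ^ (l + 1)) *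
                ((2 * (k - l)).factorial * K ^ (k - l))) := Nat.mul_le_mul_left _ h3
            _ = 2 * (((2 * k + 1).choose (2 * l + 1) * (2 * l + 1).factorial *
                (2 * (k - l)).factorial) * (K ^ (l + 1) * K ^ (k - l))) := by ring
            _ = 2 * ((2 * k + 1).factorial * K ^ (k + 1)) := by
                rw [h, ← pow_add, show l + 1 + (k - l) = k + 1 by omega]
            _ ≤ 2 * ((2 * k + 1).factorial * K ^ (k + 1)) := le_rfl
        refine (Finset.sum_le_sum hpt).trans ?_
        have g2 : (2 * (k + 1)).factorial = (2 * k + 2) * (2 * k + 1).factorial :=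
          Nat.factorial_succ (2 * k + 1)
        rw [Finset.sum_const, Finset.card_range, smul_eq_mul, g2]
        generalize (2 * k + 1).factorial = F
        refine le_of_eq ?_
        ring

theorem exists_univ (a b : ℤ) : ∃ (K : ℕ) (v U : (Polynomial ℚ)⟦X⟧),
    IsVU (a : Polynomial ℚ) (b : Polynomial ℚ) Polynomial.X v U ∧ InA K U := by
  refine ⟨a.natAbs + 2 * b.natAbs + 2, PowerSeries.mk (unV a b),
    PowerSeries.mk (unU (unV a b)), ⟨?_, ?_, ?_⟩, ?_⟩
  · rw [← PowerSeries.coeff_zero_eq_constantCoeff_apply, PowerSeries.coeff_mk, unU]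
  · ext1 n
    rw [PowerSeries.coeff_derivative, PowerSeries.coeff_mul, PowerSeries.coeff_mk, unU_succ,
      Finset.Nat.sum_antidiagonal_eq_sum_range_succ
        (fun i j => coeff i (PowerSeries.mk (unV a b)) *
          coeff j (PowerSeries.mk (unU (unV a b))))]
    simp only [PowerSeries.coeff_mk]
    have hn : Polynomial.C (1 / ((n : ℚ) + 1)) * ((n : Polynomial ℚ) + 1) = 1 := by
      have h1 : ((n : Polynomial ℚ) + 1) = Polynomial.C ((n : ℚ) + 1) := by
        simp
      have hn0 : ((n : ℚ) + 1) ≠ 0 := by positivity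
      rw [h1, ← Polynomial.C_mul, one_div, inv_mul_cancel₀ hn0, Polynomial.C_1]
    rw [mul_right_comm, hn, one_mul]
  · set v : (Polynomial ℚ)⟦X⟧ := PowerSeries.mk (unV a b) with hv
    set D : (Polynomial ℚ)⟦X⟧ := X * derivative (Polynomial ℚ) v with hD
    have hDc : ∀ k, coeff k D = (k : Polynomial ℚ) * unV a b k := by
      intro k
      rcases k with _ | k
      · simp [hD]
      · rw [hD, PowerSeries.coeff_succ_X_mul, PowerSeries.coeff_derivative, hv,
          PowerSeries.coeff_mk]
        push_cast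
        ring
    have hvc : ∀ k, coeff k v = unV a b k := fun k => by rw [hv, PowerSeries.coeff_mk]
    have hrew : 2 * (X * (1 + C (a : Polynomial ℚ) * X ^ 2 + C (b : Polynomial ℚ) * X ^ 3)) *
        derivative (Polynomial ℚ) v +
        (1 + 3 * C (a : Polynomial ℚ) * X ^ 2 + 4 * C (b : Polynomial ℚ) * X ^ 3) * v +
        (C (Polynomial.X : Polynomial ℚ) + C (a : Polynomial ℚ) * X +
          2 * C (b : Polynomial ℚ) * X ^ 2) =
        C 2 * D + C (2 * (a : Polynomial ℚ)) * (X ^ 2 * D) +
          C (2 * (b : Polynomial ℚ)) * (X ^ 3 * D) + v + C (3 * (a : Polynomial ℚ)) * (X ^ 2 * v) +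
          C (4 * (b : Polynomial ℚ)) * (X ^ 3 * v) + C (Polynomial.X : Polynomial ℚ) +
          C (a : Polynomial ℚ) * X + C (2 * (b : Polynomial ℚ)) * X ^ 2 := by
      rw [hD]
      simp only [map_mul, map_ofNat]
      ring
    rw [hrew]
    ext1 n
    have hC : ∀ q : ℤ, (q : Polynomial ℚ) = Polynomial.C (q : ℚ) := fun q => by simp
    rcases n with _ | _ | _ | k
    · simp only [map_add, PowerSeries.coeff_C_mul, PowerSeries.coeff_X_pow_mul', hDc, hvc,
        PowerSeries.coeff_C, PowerSeries.coeff_X, PowerSeries.coeff_X_pow, map_zero]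
      simp [unV]
    · simp only [map_add, PowerSeries.coeff_C_mul, PowerSeries.coeff_X_pow_mul', hDc, hvc,
        PowerSeries.coeff_C, PowerSeries.coeff_X, PowerSeries.coeff_X_pow, map_zero]
      simp [unV]
      have e1 : (3 : Polynomial ℚ) * Polynomial.C (-(a : ℚ) / 3) = -(a : Polynomial ℚ) := by
        rw [← map_ofNat (Polynomial.C : ℚ →+* Polynomial ℚ) 3, ← Polynomial.C_mul, hC a,
          ← Polynomial.C_neg]
        congr 1
        ring
      linear_combination e1
    · simp only [map_add, PowerSeries.coeff_C_mul, PowerSeries.coeff_X_pow_mul', hDc, hvc,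
        PowerSeries.coeff_C, PowerSeries.coeff_X, PowerSeries.coeff_X_pow, map_zero]
      simp [unV]
      have e1 : (5 : Polynomial ℚ) * Polynomial.C (3 / 5 : ℚ) = 3 := by
        rw [← map_ofNat (Polynomial.C : ℚ →+* Polynomial ℚ) 5, ← Polynomial.C_mul,
          ← map_ofNat (Polynomial.C : ℚ →+* Polynomial ℚ) 3]
        congr 1
        norm_num
      have e2 : (5 : Polynomial ℚ) * Polynomial.C (2 / 5 : ℚ) = 2 := by
        rw [← map_ofNat (Polynomial.C : ℚ →+* Polynomial ℚ) 5, ← Polynomial.C_mul,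
          ← map_ofNat (Polynomial.C : ℚ →+* Polynomial ℚ) 2]
        congr 1
        norm_num
      linear_combination ((a : Polynomial ℚ) * Polynomial.X) * e1 - (b : Polynomial ℚ) * e2
    · simp only [map_add, PowerSeries.coeff_C_mul, PowerSeries.coeff_X_pow_mul', hDc, hvc,
        PowerSeries.coeff_C, PowerSeries.coeff_X, PowerSeries.coeff_X_pow, map_zero]
      simp [unV]
      have hq : (2 * (k : ℚ) + 7) ≠ 0 := by positivity
      have hk : ∀ m : ℚ, Polynomial.C (2 * (k : ℚ) + m) =
          2 * (k : Polynomial ℚ) + Polynomial.C m := fun m => by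
        rw [Polynomial.C_add, Polynomial.C_mul, map_ofNat, Polynomial.C_eq_natCast]
      have e1 : (2 * (k : Polynomial ℚ) + 7) *
          Polynomial.C ((2 * (k : ℚ) + 5) * a / (2 * (k : ℚ) + 7)) =
          (2 * (k : Polynomial ℚ) + 5) * (a : Polynomial ℚ) := by
        rw [← map_ofNat (Polynomial.C : ℚ →+* Polynomial ℚ) 7, ← hk, hC a,
          ← map_ofNat (Polynomial.C : ℚ →+* Polynomial ℚ) 5, ← hk, ← Polynomial.C_mul,
          ← Polynomial.C_mul]
        congr 1
        field_simp
      have e2 : (2 * (k : Polynomial ℚ) + 7) *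
          Polynomial.C ((2 * (k : ℚ) + 4) * b / (2 * (k : ℚ) + 7)) =
          (2 * (k : Polynomial ℚ) + 4) * (b : Polynomial ℚ) := by
        rw [← map_ofNat (Polynomial.C : ℚ →+* Polynomial ℚ) 7, ← hk, hC b,
          ← map_ofNat (Polynomial.C : ℚ →+* Polynomial ℚ) 4, ← hk, ← Polynomial.C_mul,
          ← Polynomial.C_mul]
        congr 1
        field_simp
      linear_combination (-unV a b (k + 1)) * e1 - unV a b k * e2
  · intro k
    rw [PowerSeries.coeff_mk]
    exact unY a b le_rfl k

end Pool.Agent.Lib.MP_3550b5_nt.Lg
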