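import Pool.Agent.Lib.MP_3550b5_nt.TP.Log.Bez
import Pool.Agent.Lib.MP_3550b5_nt.TP.Log.Univ
import Pool.Agent.Lib.MP_3550b5_nt.TP.Log.Pair
import Pool.Agent.Lib.MP_3550b5_nt.TP.Log.Ord
import Pool.Agent.Lib.MP_3550b5_nt.TP.Main

/-! T2 and the uniform zero bound. -/

namespace Pool.Agent.Lib.MP_3550b5_nt.Lg

open PowerSeries

section zeros

variable {p : ℕ} [hp : Fact p.Prime]

/-- T2: many separated near zeros in `p ℤ_p` make the coefficients divisible by powers of `p`. -/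
theorem dvd_coeff_of_near (ρ M : ℕ) : ∀ (F : ℤ_[p]⟦X⟧) (T : Finset ℤ_[p]) (l : ℕ), M ≤ T.card →
    (M - 1) * ρ + M ≤ l →
    (∀ z ∈ T, ‖z‖ < 1 ∧ (p : ℤ_[p]) ^ l ∣ ev F z) →
    (∀ z ∈ T, ∀ z' ∈ T, z ≠ z' → z - z' ∣ (p : ℤ_[p]) ^ ρ) →
    ∀ k, (p : ℤ_[p]) ^ (M - k) ∣ coeff k F := by
  induction M with
  | zero =>
    intro F T l _ _ _ _ k
    rw [Nat.zero_sub, pow_zero]
    exact one_dvd _
  | succ M ih =>
    intro F T l hcard hl hT hsep k
    classical
    obtain ⟨z, hz⟩ : T.Nonempty := Finset.card_pos.mp (by omega)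
    obtain ⟨hz1, hz0⟩ := hT z hz
    have e := eq_quo F hz1
    rw [Nat.add_sub_cancel] at hl
    have hQ : ∀ k, (p : ℤ_[p]) ^ (M - k) ∣ coeff k (quo F z) := by
      rcases Nat.eq_zero_or_pos M with h0 | h0
      · intro k
        rw [h0, Nat.zero_sub, pow_zero]
        exact one_dvd _
      have hMl : (M - 1) * ρ + M + ρ ≤ l := by
        obtain ⟨M', rfl⟩ : ∃ M', M = M' + 1 := ⟨M - 1, by omega⟩
        rw [Nat.add_sub_cancel]
        have : (M' + 1) * ρ = M' * ρ + ρ := by ring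
        omega
      refine ih (quo F z) (T.erase z) (l - ρ) (by rw [Finset.card_erase_of_mem hz]; omega)
        (by omega) (fun w hw => ?_) (fun w hw w' hw' hne =>
          hsep w (Finset.mem_of_mem_erase hw) w' (Finset.mem_of_mem_erase hw') hne)
      obtain ⟨hwz, hwT⟩ := Finset.mem_erase.mp hw
      obtain ⟨hw1, hw0⟩ := hT w hwT
      refine ⟨hw1, ?_⟩
      have e2 : ev F w = (w - z) * ev (quo F z) w + ev F z := by
        conv_lhs => rw [e]
        rw [ev_add _ _ hw1, ev_mul _ _ hw1, ev_sub _ _ hw1, ev_X, ev_C, ev_C]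
      have h1 : (p : ℤ_[p]) ^ l ∣ (w - z) * ev (quo F z) w := by
        have h2 : (w - z) * ev (quo F z) w = ev F w - ev F z := by rw [e2]; ring
        rw [h2]
        exact dvd_sub hw0 hz0
      exact pow_dvd_of_mul (hsep w hwT z hz hwz) h1 (by omega)
    have hpz : (p : ℤ_[p]) ∣ z := (PadicInt.norm_lt_one_iff_dvd z).mp hz1
    have hstep : ∀ k, (p : ℤ_[p]) ^ (M + 1 - k) ∣ z * coeff k (quo F z) := by
      intro k
      have h1 := mul_dvd_mul hpz (hQ k)
      rw [← pow_succ'] at h1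
      exact (pow_dvd_pow _ (by omega)).trans h1
    have hC : (p : ℤ_[p]) ^ (M + 1 - k) ∣ coeff k (C (ev F z)) := by
      rw [coeff_C]
      split_ifs with h
      · refine (pow_dvd_pow _ ?_).trans hz0
        have : 0 ≤ M * ρ := Nat.zero_le _
        omega
      · exact dvd_zero _
    rw [e, map_add, sub_mul, map_sub, coeff_C_mul]
    refine dvd_add (dvd_sub ?_ (hstep k)) hC
    cases k with
    | zero => rw [coeff_zero_X_mul]; exact dvd_zero _
    | succ k =>
      rw [coeff_succ_X_mul, Nat.add_sub_add_right]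
      exact hQ k

end zeros

section relation

/-- If all maximal minors vanish, there is a linear relation between the columns. -/
lemma exists_relation_field {K : Type*} [Field K] {ι κ : Type*} [Fintype ι] [DecidableEq ι]
    (M : κ → ι → K) (hrel : ∀ c : ι → K, c ≠ 0 → ∃ k, ∑ i, c i * M k i ≠ 0) :
    ∃ s : ι → κ, (Matrix.of fun i j => M (s i) j).det ≠ 0 := by
  classical
  rcases lt_or_eq_of_le (le_top : Submodule.span K (Set.range M) ≤ ⊤) with h | h
  · exfalso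
    obtain ⟨f, hf, hker⟩ := Submodule.exists_le_ker_of_lt_top _ h
    obtain ⟨k, hk⟩ := hrel (fun i => f (Pi.single i 1)) (by
      intro h0
      apply hf
      refine LinearMap.pi_ext' fun i => LinearMap.ext_ring ?_
      simpa using congrFun h0 i)
    apply hk
    have h1 : f (M k) = 0 := hker (Submodule.subset_span ⟨k, rfl⟩)
    have h2 : f (M k) = ∑ i, M k i * f (Pi.single i 1) := by
      conv_lhs => rw [pi_eq_sum_univ' (M k)]
      rw [map_sum]
      refine Finset.sum_congr rfl fun i _ => ?_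
      rw [map_smul, smul_eq_mul]
    rw [← h1, h2]
    exact Finset.sum_congr rfl fun i _ => mul_comm _ _
  · obtain ⟨κ', a, -, hspan, hli⟩ := exists_linearIndependent' K M
    rw [h] at hspan
    let bas : Module.Basis κ' K (ι → K) := Module.Basis.mk hli hspan.ge
    have : Finite κ' := Module.Finite.finite_basis bas
    have : Fintype κ' := Fintype.ofFinite κ'
    have hcard : Fintype.card ι = Fintype.card κ' := by
      rw [← Module.finrank_eq_card_basis bas, Module.finrank_pi]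
    let e : ι ≃ κ' := Fintype.equivOfCardEq hcard
    have hli2 : LinearIndependent K (fun i => M (a (e i))) :=
      hli.comp e e.injective
    have h1 : IsUnit (Matrix.of fun i j => M (a (e i)) j) :=
      Matrix.linearIndependent_rows_iff_isUnit.mp hli2
    have h2 := (Matrix.isUnit_iff_isUnit_det _).mp h1
    exact ⟨fun i => a (e i), h2.ne_zero⟩

end relation

section univ

/-- The monomials over `ℚ[c]`. -/
noncomputable def monQ (U : (Polynomial ℚ)⟦X⟧) (d : ℕ) (μ : Mon d) : (Polynomial ℚ)⟦X⟧ :=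
  U ^ (μ.1 : ℕ) * (X * U) ^ (μ.2 : ℕ)

lemma InA.mono {T₁ T₂ : ℕ} (h : T₁ ≤ T₂) {f : (Polynomial ℚ)⟦X⟧} (hf : InA T₁ f) : InA T₂ f := by
  intro k
  obtain ⟨Z, h1, h2, h3⟩ := hf k
  exact ⟨Z, h1, h2, h3.trans (Nat.mul_le_mul_left _ (Nat.pow_le_pow_left h _))⟩

lemma inA_monQ {K₀ : ℕ} {U : (Polynomial ℚ)⟦X⟧} (hU : InA K₀ U) (d : ℕ) (μ : Mon d) :
    InA (d * (2 * K₀ + 1)) (monQ U d μ) := by
  refine InA.mono ?_ ((hU.pow (μ.1 : ℕ)).mul (((inA_X 1 le_rfl).mul hU).pow (μ.2 : ℕ)))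
  have h1 : (μ.1 : ℕ) ≤ d := by have := μ.1.2; omega
  have h2 : (μ.2 : ℕ) ≤ d := by have := μ.2.2; omega
  calc (μ.1 : ℕ) * K₀ + (μ.2 : ℕ) * (1 + K₀) ≤ d * K₀ + d * (1 + K₀) := by gcongr
    _ = d * (2 * K₀ + 1) := by ring

/-- The bivariate polynomial attached to coefficients. -/
noncomputable def polyK {K : Type*} [Field K] (d : ℕ) (a : Mon d → K) : Polynomial (Polynomial K) :=
  ∑ μ : Mon d, Polynomial.monomial ((μ.1 : ℕ) + μ.2) (Polynomial.monomial (μ.2 : ℕ) (a μ))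

lemma polyK_coeff {K : Type*} [Field K] (d : ℕ) (a : Mon d → K) (μ : Mon d) :
    ((polyK d a).coeff ((μ.1 : ℕ) + μ.2)).coeff (μ.2 : ℕ) = a μ := by
  classical
  rw [polyK, Polynomial.finsetSum_coeff, Polynomial.finsetSum_coeff, Finset.sum_eq_single μ]
  · rw [Polynomial.coeff_monomial, if_pos rfl, Polynomial.coeff_monomial, if_pos rfl]
  · intro ν _ hν
    rw [Polynomial.coeff_monomial]
    split_ifs with h1
    · rw [Polynomial.coeff_monomial, if_neg]
      intro h2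
      apply hν
      exact Prod.ext (Fin.ext (by omega)) (Fin.ext h2)
    · simp
  · intro h
    exact absurd (Finset.mem_univ μ) h

lemma polyK_natDegree {K : Type*} [Field K] (d : ℕ) (a : Mon d → K) :
    (polyK d a).natDegree ≤ 2 * d := by
  refine Polynomial.natDegree_sum_le_of_forall_le _ _ fun μ _ => ?_
  refine (Polynomial.natDegree_monomial_le _).trans ?_
  have := μ.1.2
  have := μ.2.2
  omega

lemma polyK_coeff_natDegree {K : Type*} [Field K] (d : ℕ) (a : Mon d → K) (j : ℕ) :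
    ((polyK d a).coeff j).natDegree ≤ d := by
  rw [polyK, Polynomial.finsetSum_coeff]
  refine Polynomial.natDegree_sum_le_of_forall_le _ _ fun μ _ => ?_
  rw [Polynomial.coeff_monomial]
  split_ifs
  · refine (Polynomial.natDegree_monomial_le _).trans ?_
    have := μ.2.2
    omega
  · simp

lemma polyK_eval {K : Type*} [Field K] (d : ℕ) (a : Mon d → K) (U : K⟦X⟧) (k : ℕ) :
    coeff k ((polyK d a).eval₂ Polynomial.coeToPowerSeries.ringHom U) =
      ∑ μ : Mon d, a μ * coeff k (U ^ (μ.1 : ℕ) * (X * U) ^ (μ.2 : ℕ)) := by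
  rw [polyK, Polynomial.eval₂_finsetSum, map_sum]
  refine Finset.sum_congr rfl fun μ _ => ?_
  rw [Polynomial.eval₂_monomial]
  have e : (Polynomial.coeToPowerSeries.ringHom (Polynomial.monomial (μ.2 : ℕ) (a μ)) : K⟦X⟧) =
      C (a μ) * X ^ (μ.2 : ℕ) := by
    rw [← Polynomial.C_mul_X_pow_eq_monomial, map_mul, map_pow]
    simp
  rw [e, ← coeff_C_mul, mul_pow, pow_add]
  congr 1
  ring

/-- Nonvanishing of a maximal minor, over every field. -/
lemma exists_minor {a b : ℤ} (hΔ : 4 * a ^ 3 + 27 * b ^ 2 ≠ 0) {v U : (Polynomial ℚ)⟦X⟧}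
    (hVU : IsVU (a : Polynomial ℚ) (b : Polynomial ℚ) Polynomial.X v U) (d : ℕ)
    (K : Type) [Field K] [CharZero K] (c : K) :
    ∃ σ : Mon d → Fin (ordB d (2 * d) + 1), (Matrix.of fun i j : Mon d =>
      Polynomial.aeval c (coeff (σ i : ℕ) (monQ U d j))).det ≠ 0 := by
  classical
  refine exists_relation_field (K := K) (κ := Fin (ordB d (2 * d) + 1)) (ι := Mon d)
    (fun k j => Polynomial.aeval c (coeff (k : ℕ) (monQ U d j))) fun e he => ?_
  set ψ : Polynomial ℚ →+* K := (Polynomial.aeval c : Polynomial ℚ →ₐ[ℚ] K).toRingHom with hψ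
  have hVK := hVU.map ψ
  have hΔK : 4 * (ψ a) ^ 3 + 27 * (ψ b) ^ 2 ≠ 0 := by
    rw [map_intCast, map_intCast]
    exact_mod_cast hΔ
  have hP : polyK d e ≠ 0 := by
    intro h0
    apply he
    funext μ
    rw [← polyK_coeff d e μ, h0]
    simp
  obtain ⟨k, hk, hne⟩ := order_bound hΔK hVK hP (polyK_natDegree d e) (polyK_coeff_natDegree d e)
  refine ⟨⟨k, by omega⟩, ?_⟩
  rw [polyK_eval] at hne
  convert hne using 3 with μ
  change ψ (coeff k (monQ U d μ)) = _
  have e1 : PowerSeries.map ψ (monQ U d μ) = (PowerSeries.map ψ U) ^ (μ.1 : ℕ) *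
      (X * PowerSeries.map ψ U) ^ (μ.2 : ℕ) := by
    rw [monQ, map_mul, map_pow, map_pow, map_mul, PowerSeries.map_X]
  rw [← coeff_map, e1]

end univ

section main

variable {p : ℕ} [hp : Fact p.Prime]

lemma l1_det {ι : Type*} [Fintype ι] [DecidableEq ι] (M : Matrix ι ι (Polynomial ℤ)) (e h : ι → ℕ)
    (hM : ∀ i j, (M i j).natDegree ≤ e i ∧ l1 (M i j) ≤ h i) :
    M.det.natDegree ≤ ∑ i, e i ∧ l1 M.det ≤ (Fintype.card ι).factorial * ∏ i, h i := by
  refine ⟨natDegree_det_le' M e fun i j => (hM i j).1, ?_⟩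
  rw [Matrix.det_apply]
  refine (l1_sum _ _).trans ?_
  have hterm : ∀ σ : Equiv.Perm ι, l1 (Equiv.Perm.sign σ • ∏ i, M (σ i) i) ≤ ∏ i, h i := by
    intro σ
    have h1 : l1 (∏ i, M (σ i) i) ≤ ∏ i, h i := by
      refine (l1_prod _ _).trans ?_
      rw [← Equiv.prod_comp σ h]
      exact Finset.prod_le_prod' fun i _ => (hM _ _).2
    rcases Int.units_eq_one_or (Equiv.Perm.sign σ) with h2 | h2
    · rw [h2, one_smul]; exact h1
    · rw [h2]
      have h3 : ((-1 : ℤˣ) • ∏ i, M (σ i) i) = (-1 : ℤ) • ∏ i, M (σ i) i := rfl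
      rw [h3]
      refine (l1_smul _ _).trans ?_
      simpa using h1
  refine (Finset.sum_le_card_nsmul _ _ (∏ i, h i) fun σ _ => hterm σ).trans ?_
  rw [Finset.card_univ, Fintype.card_perm, smul_eq_mul]

/-- The bound before the numerical estimates. -/
theorem zeros_bound_aux {a b : ℤ} (hΔ : 4 * a ^ 3 + 27 * b ^ 2 ≠ 0) {c : ℤ_[p]} {U : ℤ_[p]⟦X⟧}
    (hU : IsSigmaU (a : ℤ_[p]) (b : ℤ_[p]) c U) {K₀ : ℕ} {v Uu : (Polynomial ℚ)⟦X⟧}
    (hVU : IsVU (a : Polynomial ℚ) (b : Polynomial ℚ) Polynomial.X v Uu) (hA : InA K₀ Uu)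
    (d : ℕ) (hd : 1 ≤ d) (γ : Mon d → ℤ_[p]) (μ₀ : Mon d) (hμ₀ : IsUnit (γ μ₀)) (T : Finset ℤ_[p])
    (ρ l m : ℕ) (hm : m ≤ T.card) (hl : (m - 1) * ρ + m ≤ l)
    (hT : ∀ z ∈ T, ‖z‖ < 1 ∧ (p : ℤ_[p]) ^ l ∣ ev (comb (monF U (X * U) d) γ) z)
    (hsep : ∀ z ∈ T, ∀ z' ∈ T, z ≠ z' → z - z' ∣ (p : ℤ_[p]) ^ ρ) :
    p ^ (m - (ordB d (2 * d) + 1)) ≤
      (2 * (Fintype.card (Mon d) * (ordB d (2 * d) + 1)) + 1).factorial *
      ((Fintype.card (Mon d)).factorial * ((2 * (ordB d (2 * d) + 1)).factorial *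
        (d * (2 * K₀ + 1)) ^ (ordB d (2 * d) + 1)) ^ Fintype.card (Mon d)) ^
        (2 * (Fintype.card (Mon d) * (ordB d (2 * d) + 1)) + 1) := by
  classical
  set B := ordB d (2 * d) + 1 with hB
  set s := Fintype.card (Mon d) with hs
  set Tt := d * (2 * K₀ + 1) with hTt
  choose Z hZ using fun (k : ℕ) (μ : Mon d) => inA_monQ hA d μ k
  -- the coefficients over `ℤ_p`
  have hcoef : ∀ (k : ℕ) (μ : Mon d), Polynomial.aeval c (Z k μ) =
      ((2 * k).factorial : ℤ_[p]) * coeff k (monF U (X * U) d μ) := by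
    intro k μ
    set f : ℤ_[p] →+* ℚ_[p] := algebraMap ℤ_[p] ℚ_[p] with hf
    have hinj : Function.Injective f := by
      intro x y hxy
      exact Subtype.ext hxy
    obtain ⟨v', hv'⟩ := exists_isVU (hU.map f)
    set ψ : Polynomial ℚ →+* ℚ_[p] :=
      (Polynomial.aeval (f c) : Polynomial ℚ →ₐ[ℚ] ℚ_[p]).toRingHom with hψ
    have hψX : ψ Polynomial.X = f c := Polynomial.aeval_X _
    have h1 := hVU.map ψ
    rw [map_intCast, map_intCast, hψX] at h1
    rw [map_intCast, map_intCast] at hv'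
    have h2 : PowerSeries.map ψ Uu = PowerSeries.map f U := h1.unique hv'
    have e1 : PowerSeries.map ψ (monQ Uu d μ) = PowerSeries.map f (monF U (X * U) d μ) := by
      rw [monQ, monF, map_mul, map_pow, map_pow, map_mul, PowerSeries.map_X, h2,
        map_mul, map_pow, map_pow, map_mul, PowerSeries.map_X]
    apply hinj
    have h3 : f (Polynomial.aeval c (Z k μ)) =
        ψ ((Z k μ).map (Int.castRingHom ℚ)) := by
      change _ = Polynomial.aeval (f c) ((Z k μ).map (Int.castRingHom ℚ))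
      rw [Polynomial.aeval_def, Polynomial.aeval_def, Polynomial.hom_eval₂,
        Polynomial.eval₂_map]
      congr 1
    rw [h3, (hZ k μ).1, map_mul, map_mul, map_natCast]
    have h4 : ψ (coeff k (monQ Uu d μ)) = f (coeff k (monF U (X * U) d μ)) := by
      rw [← coeff_map, e1, coeff_map]
    rw [h4]
    congr 1
    change Polynomial.aeval (f c) (Polynomial.C ((2 * k).factorial : ℚ)) = _
    rw [Polynomial.aeval_C, map_natCast, map_natCast]
  -- the family of minors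
  set S : (Mon d → Fin B) → Polynomial ℤ := fun σ =>
    (Matrix.of fun i j : Mon d => Z (σ i) j).det with hS
  have hSdeg : ∀ σ, (S σ).natDegree ≤ s * B ∧ l1 (S σ) ≤
      s.factorial * ((2 * B).factorial * Tt ^ B) ^ s := by
    intro σ
    obtain ⟨h1, h2⟩ := l1_det (Matrix.of fun i j : Mon d => Z (σ i) j)
      (fun i => (σ i : ℕ)) (fun i => (2 * (σ i : ℕ)).factorial * Tt ^ (σ i : ℕ))
      fun i j => (hZ _ _).2
    refine ⟨h1.trans ?_, h2.trans ?_⟩
    · refine (Finset.sum_le_card_nsmul _ _ B fun i _ => (σ i).2.le).trans ?_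
      rw [Finset.card_univ, smul_eq_mul]
    · refine Nat.mul_le_mul_left _ ?_
      have h0 : 0 < Tt := Nat.mul_pos hd (Nat.succ_pos _)
      refine (Finset.prod_le_pow_card _ _ ((2 * B).factorial * Tt ^ B) fun i _ => ?_).trans ?_
      · exact Nat.mul_le_mul (Nat.factorial_le (by have := (σ i).2; omega))
          (Nat.pow_le_pow_right h0 (σ i).2.le)
      · rw [Finset.card_univ]
  have hroot : ∀ (K : Type) [Field K] [CharZero K] (c : K), ∃ σ, Polynomial.aeval c (S σ) ≠ 0 := by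
    intro K _ _ c'
    obtain ⟨σ, hσ⟩ := exists_minor hΔ hVU d K c'
    refine ⟨σ, ?_⟩
    have e1 : Polynomial.aeval c' (S σ) =
        (∏ i : Mon d, ((2 * (σ i : ℕ)).factorial : K)) * (Matrix.of fun i j : Mon d =>
          Polynomial.aeval c' (coeff (σ i : ℕ) (monQ Uu d j))).det := by
      have h1 := RingHom.map_det (Polynomial.aeval c' : Polynomial ℤ →ₐ[ℤ] K).toRingHom
        (Matrix.of fun i j : Mon d => Z (σ i) j)
      have h2 : (Polynomial.aeval c' : Polynomial ℤ →ₐ[ℤ] K).toRingHom.mapMatrix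
          (Matrix.of fun i j : Mon d => Z (σ i) j) = Matrix.of fun (i j : Mon d) =>
            ((2 * (σ i : ℕ)).factorial : K) * (Matrix.of fun i j : Mon d =>
              Polynomial.aeval c' (coeff (σ i : ℕ) (monQ Uu d j))) i j := by
        ext i j
        simp only [RingHom.mapMatrix_apply, Matrix.map_apply, Matrix.of_apply]
        change Polynomial.aeval c' (Z (σ i) j) = _
        have h3 := congrArg (Polynomial.aeval c' : Polynomial ℚ →ₐ[ℚ] K) (hZ (σ i) j).1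
        rw [map_mul, Polynomial.aeval_C, map_natCast] at h3
        rw [← h3, Polynomial.aeval_def, Polynomial.aeval_def, Polynomial.eval₂_map]
        congr 1
        exact RingHom.ext_int _ _
      rw [h2, Matrix.det_mul_column] at h1
      exact h1
    rw [e1]
    refine mul_ne_zero (Finset.prod_ne_zero_iff.mpr fun i _ => ?_) hσ
    exact_mod_cast Nat.factorial_ne_zero _
  refine pow_le_of_dvd_family S (fun σ => (hSdeg σ).1) (fun σ j => ?_) hroot c _ fun σ => ?_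
  · refine (coeff_le_l1 _ _).trans ?_
    exact_mod_cast (hSdeg σ).2
  · -- divisibility
    set F := comb (monF U (X * U) d) γ with hF
    set N : Matrix (Mon d) (Mon d) ℤ_[p] :=
      Matrix.of fun i j => Polynomial.aeval c (Z (σ i) j) with hN
    have h1 : ∀ i, (p : ℤ_[p]) ^ (m - B) ∣ N.mulVec γ i := by
      intro i
      have e1 : N.mulVec γ i = ((2 * (σ i : ℕ)).factorial : ℤ_[p]) * coeff (σ i : ℕ) F := by
        rw [Matrix.mulVec, dotProduct, hF, coeff_comb, Finset.mul_sum]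
        refine Finset.sum_congr rfl fun j _ => ?_
        rw [hN, Matrix.of_apply, hcoef]
        ring
      rw [e1]
      refine Dvd.dvd.mul_left ?_ _
      refine (pow_dvd_pow _ ?_).trans (dvd_coeff_of_near ρ m F T l hm hl hT hsep _)
      have := (σ i).2
      omega
    have h2 := dvd_det_mul N γ h1 μ₀
    have h3 := (hμ₀.dvd_mul_right).mp h2
    have h4 : N.det = Polynomial.aeval c (S σ) := by
      have h5 := RingHom.map_det (Polynomial.aeval c : Polynomial ℤ →ₐ[ℤ] ℤ_[p]).toRingHom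
        (Matrix.of fun i j : Mon d => Z (σ i) j)
      exact h5.symm
    rw [← h4]
    exact h3

omit hp in
lemma le_two_pow_of_le {x c d e : ℕ} (h : x ≤ 2 ^ c * d ^ e) (hd : 1 ≤ d) : x ≤ 2 ^ ((c + e) * d) := by
  refine h.trans ?_
  have h1 : d ^ e ≤ 2 ^ (d * e) := by
    rw [pow_mul]
    exact Nat.pow_le_pow_left Nat.lt_two_pow_self.le _
  calc 2 ^ c * d ^ e ≤ 2 ^ (c * d) * 2 ^ (d * e) :=
        Nat.mul_le_mul (Nat.pow_le_pow_right (by norm_num) (Nat.le_mul_of_pos_right _ hd)) h1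
    _ = 2 ^ ((c + e) * d) := by rw [← pow_add]; congr 1; ring

omit hp in
/-- The numerical estimate. -/
lemma num_bound (K₀ : ℕ) : ∃ C₀ : ℕ, ∀ d : ℕ, 1 ≤ d → ∃ E : ℕ,
    (2 * (Fintype.card (Mon d) * (ordB d (2 * d) + 1)) + 1).factorial *
      ((Fintype.card (Mon d)).factorial * ((2 * (ordB d (2 * d) + 1)).factorial *
        (d * (2 * K₀ + 1)) ^ (ordB d (2 * d) + 1)) ^ Fintype.card (Mon d)) ^
        (2 * (Fintype.card (Mon d) * (ordB d (2 * d) + 1)) + 1) ≤ 2 ^ E ∧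
      E + (ordB d (2 * d) + 1) ≤ C₀ * d ^ 13 := by
  set a := 2 * K₀ + 20 with ha
  refine ⟨a * (6009 * 9017) + 751, fun d hd => ?_⟩
  set B := ordB d (2 * d) + 1 with hB
  set s := Fintype.card (Mon d) with hs
  have hs2 : s = (d + 1) ^ 2 := by
    rw [hs, Fintype.card_prod, Fintype.card_fin]; ring
  set n := 2 * (s * B) + 1 with hn
  have p1 : ∀ i j : ℕ, i ≤ j → d ^ i ≤ d ^ j := fun i j h => Nat.pow_le_pow_right hd h
  have hs4 : s ≤ 4 * d ^ 2 := by
    rw [hs2]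
    calc (d + 1) ^ 2 ≤ (2 * d) ^ 2 := Nat.pow_le_pow_left (by omega) 2
      _ = 4 * d ^ 2 := by ring
  have hB4 : B ≤ 751 * d ^ 4 := by
    have h1 : 2 * d + 1 ≤ 3 * d := by omega
    have h2 : ordB d (2 * d) ≤ 750 * d ^ 4 := by
      unfold ordB
      calc ((2 * d + 1) ^ 2 + 1) * ((2 * d + 1) * (d + 4 * (2 * d + 1)) + 4 * (2 * d + 1) ^ 2) ≤
            ((3 * d) ^ 2 + d ^ 2) * ((3 * d) * (d + 4 * (3 * d)) + 4 * (3 * d) ^ 2) := by
            gcongr
            exact Nat.one_le_pow _ _ hd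
        _ = 750 * d ^ 4 := by ring
    have h3 : 1 ≤ d ^ 4 := Nat.one_le_pow _ _ hd
    omega
  have hsB : s * B ≤ 3004 * d ^ 6 := by
    calc s * B ≤ (4 * d ^ 2) * (751 * d ^ 4) := Nat.mul_le_mul hs4 hB4
      _ = 3004 * d ^ 6 := by ring
  have hn6 : n ≤ 6009 * d ^ 6 := by
    have : 1 ≤ d ^ 6 := Nat.one_le_pow _ _ hd
    omega
  -- powers of two
  have q1 : n ≤ 2 ^ (a * d) := by
    have h1 : n ≤ 2 ^ 13 * d ^ 6 := hn6.trans (Nat.mul_le_mul_right _ (by norm_num))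
    exact (le_two_pow_of_le h1 hd).trans (Nat.pow_le_pow_right (by norm_num)
      (Nat.mul_le_mul_right _ (by omega)))
  have q2 : s ≤ 2 ^ (a * d) := by
    have h1 : s ≤ 2 ^ 2 * d ^ 2 := hs4
    exact (le_two_pow_of_le h1 hd).trans (Nat.pow_le_pow_right (by norm_num)
      (Nat.mul_le_mul_right _ (by omega)))
  have q3 : 2 * B ≤ 2 ^ (a * d) := by
    have h1 : 2 * B ≤ 2 ^ 11 * d ^ 4 := by
      have : 0 ≤ d ^ 4 := Nat.zero_le _
      omega
    exact (le_two_pow_of_le h1 hd).trans (Nat.pow_le_pow_right (by norm_num)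
      (Nat.mul_le_mul_right _ (by omega)))
  have q4 : d * (2 * K₀ + 1) ≤ 2 ^ (a * d) := by
    have h1 : d * (2 * K₀ + 1) ≤ 2 ^ (2 * K₀ + 1) * d ^ 1 := by
      rw [pow_one, mul_comm d]
      exact Nat.mul_le_mul_right _ Nat.lt_two_pow_self.le
    exact (le_two_pow_of_le h1 hd).trans (Nat.pow_le_pow_right (by norm_num)
      (Nat.mul_le_mul_right _ (by omega)))
  have f : ∀ x : ℕ, x ≤ 2 ^ (a * d) → x.factorial ≤ 2 ^ (a * d * x) := by
    intro x hx
    refine (Nat.factorial_le_pow x).trans ?_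
    rw [pow_mul]
    exact Nat.pow_le_pow_left hx x
  refine ⟨a * d * (n * (1 + s + 3 * (s * B))), ?_, ?_⟩
  · have h1 : (2 * B).factorial * (d * (2 * K₀ + 1)) ^ B ≤ 2 ^ (a * d * (3 * B)) := by
      calc (2 * B).factorial * (d * (2 * K₀ + 1)) ^ B ≤
            2 ^ (a * d * (2 * B)) * (2 ^ (a * d)) ^ B :=
            Nat.mul_le_mul (f _ q3) (Nat.pow_le_pow_left q4 _)
        _ = 2 ^ (a * d * (3 * B)) := by rw [← pow_mul, ← pow_add]; congr 1; ring
    have h2 : s.factorial * ((2 * B).factorial * (d * (2 * K₀ + 1)) ^ B) ^ s ≤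
        2 ^ (a * d * (s + 3 * (s * B))) := by
      calc s.factorial * ((2 * B).factorial * (d * (2 * K₀ + 1)) ^ B) ^ s ≤
            2 ^ (a * d * s) * (2 ^ (a * d * (3 * B))) ^ s :=
            Nat.mul_le_mul (f _ q2) (Nat.pow_le_pow_left h1 _)
        _ = 2 ^ (a * d * (s + 3 * (s * B))) := by
            rw [← pow_mul, ← pow_add]; congr 1; ring
    calc n.factorial * (s.factorial * ((2 * B).factorial * (d * (2 * K₀ + 1)) ^ B) ^ s) ^ n ≤
          2 ^ (a * d * n) * (2 ^ (a * d * (s + 3 * (s * B)))) ^ n :=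
          Nat.mul_le_mul (f _ q1) (Nat.pow_le_pow_left h2 _)
      _ = 2 ^ (a * d * (n * (1 + s + 3 * (s * B)))) := by
          rw [← pow_mul, ← pow_add]; congr 1; ring
  · have h1 : 1 + s + 3 * (s * B) ≤ 9017 * d ^ 6 := by
      have e1 := p1 2 6 (by norm_num)
      have e2 : 1 ≤ d ^ 6 := Nat.one_le_pow _ _ hd
      omega
    have h2 : a * d * (n * (1 + s + 3 * (s * B))) ≤ a * (6009 * 9017) * d ^ 13 := by
      calc a * d * (n * (1 + s + 3 * (s * B))) ≤ a * d * ((6009 * d ^ 6) * (9017 * d ^ 6)) := by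
            gcongr
        _ = a * (6009 * 9017) * d ^ 13 := by ring
    have h3 : B ≤ 751 * d ^ 13 := hB4.trans (Nat.mul_le_mul_left _ (p1 4 13 (by norm_num)))
    calc a * d * (n * (1 + s + 3 * (s * B))) + B ≤
          a * (6009 * 9017) * d ^ 13 + 751 * d ^ 13 := add_le_add h2 h3
      _ = (a * (6009 * 9017) + 751) * d ^ 13 := by ring

/-- The uniform bound for separated near zeros, polynomial in the degree. -/
theorem zeros_near {a b : ℤ} (hΔ : 4 * a ^ 3 + 27 * b ^ 2 ≠ 0) {c : ℤ_[p]} {U : ℤ_[p]⟦X⟧}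
    (hU : IsSigmaU (a : ℤ_[p]) (b : ℤ_[p]) c U) :
    ∃ C₀ : ℕ, ∀ d : ℕ, 1 ≤ d → ∀ (γ : Mon d → ℤ_[p]) (κ ρ l : ℕ),
      (∃ i, ¬ (p : ℤ_[p]) ^ (κ + 1) ∣ γ i) →
      κ + C₀ * d ^ 13 + ρ * (C₀ * d ^ 13) < l → ∀ T : Finset ℤ_[p],
      (∀ z ∈ T, ‖z‖ < 1 ∧ (p : ℤ_[p]) ^ l ∣ ev (comb (monF U (X * U) d) γ) z) →
      (∀ z ∈ T, ∀ z' ∈ T, z ≠ z' → z - z' ∣ (p : ℤ_[p]) ^ ρ) → T.card ≤ C₀ * d ^ 13 := by
  obtain ⟨K₀, v, Uu, hVU, hA⟩ := exists_univ a b
  obtain ⟨C₀, hC₀⟩ := num_bound K₀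
  refine ⟨C₀, fun d hd γ κ ρ l hγ hl T hT hsep => ?_⟩
  obtain ⟨E, hE1, hE2⟩ := hC₀ d hd
  set M := C₀ * d ^ 13 with hM
  by_contra hcard
  push Not at hcard
  obtain ⟨k, γ1, hk, ⟨μ₀, hμ₀⟩, hγe⟩ := exists_primitive hγ
  have h1 := zeros_bound_aux hΔ hU hVU hA d hd γ1 μ₀ (PadicInt.isUnit_iff.mpr hμ₀) T ρ (l - k)
    (M + 1) hcard (by
      rw [Nat.add_sub_cancel]
      have : M * ρ = ρ * M := mul_comm _ _
      omega) (fun z hz => ?_) hsep
  · have hp2 : 2 ≤ p := hp.out.two_le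
    have h2 : 2 ^ (M + 1 - (ordB d (2 * d) + 1)) ≤ 2 ^ E :=
      ((Nat.pow_le_pow_left hp2 _).trans h1).trans hE1
    have h3 := (Nat.pow_le_pow_iff_right (by norm_num : 1 < 2)).mp h2
    omega
  · obtain ⟨hz1, hz0⟩ := hT z hz
    refine ⟨hz1, ?_⟩
    have e1 : comb (monF U (X * U) d) γ =
        C ((p : ℤ_[p]) ^ k) * comb (monF U (X * U) d) γ1 := by
      rw [comb, comb, Finset.mul_sum]
      refine Finset.sum_congr rfl fun i _ => ?_
      rw [hγe i, map_mul, mul_assoc]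
    rw [e1, ev_mul _ _ hz1, ev_C] at hz0
    exact pow_dvd_of_mul dvd_rfl hz0 (by omega)

end main

end Pool.Agent.Lib.MP_3550b5_nt.Lg
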