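import Pool.Agent.Lib.MP_3550b5_nt.TP.Log.Defs
import Pool.Agent.Lib.MP_3550b5_nt.TP.L5

/-!
T3: effective Bezout for a family of integral polynomials without common root.

Proof. `n = 2 Δ + 1`. Let `S0` be a nonzero member, `δ = natDegree S0 ≤ Δ`. In `ℚ[X]` the ideal
generated by the `S i` is everything (else it is contained in a maximal ideal `m`, and `K = ℚ[X]/m`,
`c = class of X` contradicts `hroot`). Hence every `g` of the ideal is `w + h S0` with `w` in the
span of the `X^k (S i)`, `k < δ` (induction on the membership; `u S i = (u mod S0) S i + ...`). For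
`g` of degree `< n` one gets `deg (h S0) < n`. So the polynomials `X^k (S i)` of degree `< n` span
all the polynomials of degree `< n`. So some `n × n` determinant of their coefficients is nonzero
(an integer `A`, `|A| ≤ n! H^n`; compare `exists_relation` in `L5`, over `ℚ`). The matrix times the
vector `(1, c, ..., c^(n-1))` has entries `c^k S i (c)`, divisible by `p^E`, and the adjugate gives
`p^E ∣ A`.
-/

namespace Pool.Agent.Lib.MP_3550b5_nt.Lg

open Polynomial

private lemma bz_pi {ι : Type*} [Fintype ι] [DecidableEq ι] (v : ι → ℚ) :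
    v = ∑ i, v i • (Pi.single i 1 : ι → ℚ) := by
  funext j
  rw [Finset.sum_apply, Finset.sum_eq_single j]
  · simp
  · intro i _ hi
    simp [hi.symm]
  · intro h
    exact absurd (Finset.mem_univ j) h

/-- a family of vectors annihilated by no nonzero functional has a nonzero determinant -/
private lemma bz_det {ι κ : Type*} [Fintype ι] [DecidableEq ι] (M : κ → ι → ℚ)
    (hM : ∀ c : ι → ℚ, (∀ k, ∑ i, c i * M k i = 0) → c = 0) :
    ∃ s : ι → κ, (Matrix.of fun i j => M (s i) j).det ≠ 0 := by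
  classical
  rcases lt_or_eq_of_le (le_top : Submodule.span ℚ (Set.range M) ≤ ⊤) with h | h
  · exfalso
    obtain ⟨f, hf, hker⟩ := Submodule.exists_le_ker_of_lt_top _ h
    apply hf
    have h0 := hM (fun i => f (Pi.single i 1)) (fun k => by
      have h1 : f (M k) = 0 := hker (Submodule.subset_span ⟨k, rfl⟩)
      rw [← h1]
      conv_rhs => rw [bz_pi (M k)]
      rw [map_sum]
      refine Finset.sum_congr rfl fun i _ => ?_
      rw [map_smul, smul_eq_mul, mul_comm])
    refine LinearMap.pi_ext' fun i => LinearMap.ext_ring ?_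
    have := congrFun h0 i
    simpa using this
  · obtain ⟨κ', a, -, hspan, hli⟩ := exists_linearIndependent' ℚ M
    rw [h] at hspan
    let bas : Module.Basis κ' ℚ (ι → ℚ) := Module.Basis.mk hli hspan.ge
    have : Finite κ' := Module.Finite.finite_basis bas
    have : Fintype κ' := Fintype.ofFinite κ'
    have hcard : Fintype.card ι = Fintype.card κ' := by
      rw [← Module.finrank_eq_card_basis bas, Module.finrank_pi]
    let e : ι ≃ κ' := Fintype.equivOfCardEq hcard
    have hli2 : LinearIndependent ℚ (fun i => M (a (e i))) :=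
      hli.comp e e.injective
    have h1 : IsUnit (Matrix.of fun i j => M (a (e i)) j) :=
      Matrix.linearIndependent_rows_iff_isUnit.mp hli2
    exact ⟨fun i => a (e i), ((Matrix.isUnit_iff_isUnit_det _).mp h1).ne_zero⟩

private lemma bz_aeval {K : Type*} [Field K] (φ : ℚ[X] →+* K) (q : ℤ[X]) :
    φ (q.map (Int.castRingHom ℚ)) = aeval (φ X) q := by
  have h : φ.comp (mapRingHom (Int.castRingHom ℚ)) =
      ((aeval (φ X) : ℤ[X] →ₐ[ℤ] K) : ℤ[X] →+* K) := by
    apply ringHom_ext'
    · exact RingHom.ext_int _ _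
    · simp
  exact congrArg (fun g => g q) h

/-- the ideal generated by the family is everything -/
private lemma bz_one {ι : Type*} (S : ι → ℤ[X])
    (hroot : ∀ (K : Type) [Field K] [CharZero K] (c : K), ∃ i, aeval c (S i) ≠ 0) :
    (1 : ℚ[X]) ∈ Ideal.span (Set.range fun i => (S i).map (Int.castRingHom ℚ)) := by
  by_contra h
  have h1 : Ideal.span (Set.range fun i => (S i).map (Int.castRingHom ℚ)) ≠ ⊤ := by
    rwa [Ne, Ideal.eq_top_iff_one]
  obtain ⟨m, hm, hle⟩ := Ideal.exists_le_maximal _ h1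
  obtain ⟨K, iK, φ, hφ⟩ : ∃ (K : Type) (_ : Field K) (φ : ℚ[X] →+* K),
      ∀ x ∈ m, φ x = 0 :=
    ⟨ℚ[X] ⧸ m, Ideal.Quotient.field m, Ideal.Quotient.mk m,
      fun x hx => Ideal.Quotient.eq_zero_iff_mem.2 hx⟩
  have hcz : CharZero K := ((φ.comp C).charZero_iff (φ.comp C).injective).1 inferInstance
  obtain ⟨i, hi⟩ := hroot K (φ X)
  apply hi
  rw [← bz_aeval]
  exact hφ _ (hle (Ideal.subset_span ⟨i, rfl⟩))

/-- the functional with coefficients `f` -/
private noncomputable def bzF {n : ℕ} (f : Fin n → ℚ) : ℚ[X] →ₗ[ℚ] ℚ :=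
  ∑ j : Fin n, f j • lcoeff ℚ (j : ℕ)

private lemma bzF_apply {n : ℕ} (f : Fin n → ℚ) (g : ℚ[X]) :
    bzF f g = ∑ j : Fin n, f j * g.coeff j := by
  rw [bzF, LinearMap.sum_apply]
  rfl

/-- a linear functional which vanishes on the multiples `X ^ k * s`, `k < m`, vanishes on the
multiples `u * s`, `natDegree u < m` -/
private lemma bzF_mul (F : ℚ[X] →ₗ[ℚ] ℚ) (s u : ℚ[X]) (m : ℕ)
    (h : ∀ k < m, F (X ^ k * s) = 0) (hu : u.natDegree < m) : F (u * s) = 0 := by
  rw [u.as_sum_range' m hu, Finset.sum_mul, map_sum]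
  refine Finset.sum_eq_zero fun k hk => ?_
  rw [← C_mul_X_pow_eq_monomial, mul_assoc, ← smul_eq_C_mul, map_smul,
    h k (Finset.mem_range.1 hk), smul_zero]

/-- the main algebraic step -/
private lemma bz_vanish {ι : Type*} (S : ι → ℤ[X]) {Δ : ℕ}
    (hdeg : ∀ i, (S i).natDegree ≤ Δ)
    (hroot : ∀ (K : Type) [Field K] [CharZero K] (c : K), ∃ i, aeval c (S i) ≠ 0)
    (f : Fin (2 * Δ + 1) → ℚ)
    (hf : ∀ (k : ℕ) (i : ι), k + (S i).natDegree < 2 * Δ + 1 →
      bzF f (X ^ k * (S i).map (Int.castRingHom ℚ)) = 0) : f = 0 := by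
  classical
  obtain ⟨i0, hi0⟩ := hroot ℚ 0
  have hinj : Function.Injective (Int.castRingHom ℚ) := Int.cast_injective
  set Q : ι → ℚ[X] := fun i => (S i).map (Int.castRingHom ℚ) with hQ
  have hQdeg : ∀ i, (Q i).natDegree = (S i).natDegree := fun i =>
    natDegree_map_eq_of_injective hinj _
  have hS0 : S i0 ≠ 0 := by
    intro h
    apply hi0
    rw [h, map_zero]
  have hQ0 : Q i0 ≠ 0 := by
    rw [hQ]
    exact (Polynomial.map_ne_zero_iff hinj).2 hS0
  -- the decomposition
  set δ := (Q i0).natDegree with hδ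
  have hδΔ : δ ≤ Δ := by rw [hδ, hQdeg]; exact hdeg i0
  have key : ∀ g ∈ Ideal.span (Set.range Q), ∀ a : ℚ[X], ∃ w h : ℚ[X],
      a * g = w + h * Q i0 ∧ w.natDegree < 2 * Δ + 1 ∧ bzF f w = 0 := by
    intro g hg
    induction hg using Submodule.span_induction with
    | mem x hx =>
      obtain ⟨i, rfl⟩ := hx
      intro a
      refine ⟨(a % Q i0) * Q i, (a / Q i0) * Q i, ?_, ?_, ?_⟩
      · have := EuclideanDomain.div_add_mod a (Q i0)
        linear_combination (-Q i) * this
      · by_cases hδ0 : δ = 0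
        · have hu : IsUnit (Q i0) := by
            rw [eq_C_of_natDegree_eq_zero hδ0] at hQ0 ⊢
            rw [isUnit_C]
            exact isUnit_iff_ne_zero.2 (fun h => hQ0 (by rw [h, C_0]))
          have hz : a % Q i0 = 0 := by
            rw [EuclideanDomain.mod_eq_zero]
            exact hu.dvd
          rw [hz, zero_mul, natDegree_zero]
          omega
        · have h1 : (a % Q i0).natDegree < δ := natDegree_mod_lt a hδ0
          have h2 := natDegree_mul_le (p := a % Q i0) (q := Q i)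
          have h3 := hdeg i
          rw [← hQdeg] at h3
          omega
      · by_cases hδ0 : δ = 0
        · have hu : IsUnit (Q i0) := by
            rw [eq_C_of_natDegree_eq_zero hδ0] at hQ0 ⊢
            rw [isUnit_C]
            exact isUnit_iff_ne_zero.2 (fun h => hQ0 (by rw [h, C_0]))
          have hz : a % Q i0 = 0 := by
            rw [EuclideanDomain.mod_eq_zero]
            exact hu.dvd
          rw [hz, zero_mul, map_zero]
        · have h1 : (a % Q i0).natDegree < δ := natDegree_mod_lt a hδ0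
          refine bzF_mul _ _ _ δ (fun k hk => hf k i ?_) h1
          have h3 := hdeg i
          omega
    | zero =>
      intro a
      exact ⟨0, 0, by ring, by rw [natDegree_zero]; omega, map_zero _⟩
    | add x y _ _ ihx ihy =>
      intro a
      obtain ⟨w, h, e, d, v⟩ := ihx a
      obtain ⟨w', h', e', d', v'⟩ := ihy a
      refine ⟨w + w', h + h', by rw [mul_add, e, e']; ring, ?_, by rw [map_add, v, v', add_zero]⟩
      have := natDegree_add_le w w'
      omega
    | smul b x _ ih =>
      intro a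
      obtain ⟨w, h, e, d, v⟩ := ih (a * b)
      exact ⟨w, h, by rw [smul_eq_mul, ← mul_assoc]; exact e, d, v⟩
  have hone := bz_one S hroot
  have hall : ∀ g : ℚ[X], g.natDegree < 2 * Δ + 1 → bzF f g = 0 := by
    intro g hg
    obtain ⟨w, h, e, d, v⟩ := key 1 hone g
    rw [mul_one] at e
    by_cases h0 : h = 0
    · rw [e, h0, zero_mul, add_zero]
      exact v
    have h1 : (h * Q i0).natDegree < 2 * Δ + 1 := by
      have h2 : h * Q i0 = g - w := by rw [e]; ring
      rw [h2]
      have := natDegree_sub_le g w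
      omega
    have h2 : bzF f (h * Q i0) = 0 := by
      rw [natDegree_mul h0 hQ0] at h1
      refine bzF_mul _ _ _ (2 * Δ + 1 - δ) (fun k hk => hf k i0 ?_) ?_
      · rw [← hQdeg]
        omega
      · omega
    rw [e, map_add, v, h2, add_zero]
  funext j
  have h1 := hall (X ^ (j : ℕ)) (by rw [natDegree_X_pow]; exact j.2)
  rw [bzF_apply, Finset.sum_eq_single j] at h1
  · rw [coeff_X_pow_self, mul_one] at h1
    exact h1
  · intro b _ hb
    rw [coeff_X_pow, if_neg, mul_zero]
    intro h2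
    exact hb (Fin.ext h2)
  · intro h2
    exact absurd (Finset.mem_univ j) h2

theorem pow_le_of_dvd_family {ι : Type*} (S : ι → ℤ[X]) {Δ H : ℕ}
    (hdeg : ∀ i, (S i).natDegree ≤ Δ) (hH : ∀ i j, |(S i).coeff j| ≤ H)
    (hroot : ∀ (K : Type) [Field K] [CharZero K] (c : K), ∃ i, aeval c (S i) ≠ 0)
    {p : ℕ} [Fact p.Prime] (c : ℤ_[p]) (E : ℕ) (hE : ∀ i, (p : ℤ_[p]) ^ E ∣ aeval c (S i)) :
    p ^ E ≤ (2 * Δ + 1).factorial * H ^ (2 * Δ + 1) := by
  classical
  set κ := {x : ℕ × ι // x.1 + (S x.2).natDegree < 2 * Δ + 1} with hκ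
  obtain ⟨s, hs⟩ := bz_det (ι := Fin (2 * Δ + 1)) (κ := κ)
    (fun x j => (((X ^ x.1.1 * S x.1.2 : ℤ[X]).coeff (j : ℕ) : ℤ) : ℚ)) (by
      intro f hf
      refine bz_vanish S hdeg hroot f fun k i hk => ?_
      rw [bzF_apply, ← hf ⟨(k, i), hk⟩]
      refine Finset.sum_congr rfl fun j _ => ?_
      congr 1
      have h1 : (X ^ k * (S i).map (Int.castRingHom ℚ) : ℚ[X]) =
          (X ^ k * S i).map (Int.castRingHom ℚ) := by
        rw [Polynomial.map_mul, Polynomial.map_pow, map_X]
      rw [h1, coeff_map]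
      rfl)
  set A : Matrix (Fin (2 * Δ + 1)) (Fin (2 * Δ + 1)) ℤ :=
    Matrix.of fun i j => (X ^ (s i).1.1 * S (s i).1.2 : ℤ[X]).coeff (j : ℕ) with hA
  have hne : A.det ≠ 0 := by
    intro h
    apply hs
    have h1 := RingHom.map_det (Int.castRingHom ℚ) A
    rw [h, map_zero] at h1
    rw [h1]
    rfl
  have hub : |A.det| ≤ (Fintype.card (Fin (2 * Δ + 1))).factorial •
      ((H : ℤ) ^ Fintype.card (Fin (2 * Δ + 1))) := by
    refine Matrix.det_le (abv := AbsoluteValue.abs) fun i j => ?_
    rw [AbsoluteValue.abs_apply, hA, Matrix.of_apply, coeff_X_pow_mul']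
    split_ifs with h
    · exact hH _ _
    · rw [abs_zero]
      positivity
  -- divisibility
  have hdvd : (p : ℤ_[p]) ^ E ∣ ((A.det : ℤ) : ℤ_[p]) := by
    set B : Matrix (Fin (2 * Δ + 1)) (Fin (2 * Δ + 1)) ℤ_[p] :=
      (Int.castRingHom ℤ_[p]).mapMatrix A with hB
    set v : Fin (2 * Δ + 1) → ℤ_[p] := fun j => c ^ (j : ℕ) with hv
    have h1 : ∀ i, (B.mulVec v) i = aeval c (X ^ (s i).1.1 * S (s i).1.2 : ℤ[X]) := by
      intro i
      have hlt : (X ^ (s i).1.1 * S (s i).1.2 : ℤ[X]).natDegree < 2 * Δ + 1 := by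
        refine lt_of_le_of_lt natDegree_mul_le ?_
        rw [natDegree_X_pow]
        exact (s i).2
      rw [aeval_eq_sum_range' hlt, Finset.sum_range, Matrix.mulVec, dotProduct]
      refine Finset.sum_congr rfl fun j _ => ?_
      rw [hB, RingHom.mapMatrix_apply, Matrix.map_apply, hA, Matrix.of_apply, hv, zsmul_eq_mul]
      rfl
    have h2 : ∀ i, (p : ℤ_[p]) ^ E ∣ (B.mulVec v) i := by
      intro i
      rw [h1, map_mul]
      exact Dvd.dvd.mul_left (hE _) _
    have h3 : (B.adjugate.mulVec (B.mulVec v)) 0 = B.det := by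
      rw [Matrix.mulVec_mulVec, Matrix.adjugate_mul, Matrix.smul_mulVec, Matrix.one_mulVec]
      simp [hv]
    have h4 : ((A.det : ℤ) : ℤ_[p]) = B.det := RingHom.map_det (Int.castRingHom ℤ_[p]) A
    rw [h4, ← h3, Matrix.mulVec, dotProduct]
    exact Finset.dvd_sum fun i _ => Dvd.dvd.mul_left (h2 i) _
  rw [PadicInt.pow_p_dvd_int_iff] at hdvd
  have hle := Int.le_of_dvd (abs_pos.mpr hne) ((dvd_abs _ _).mpr hdvd)
  have h5 := hle.trans hub
  rw [Fintype.card_fin, nsmul_eq_mul] at h5
  exact_mod_cast h5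

end Pool.Agent.Lib.MP_3550b5_nt.Lg
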