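import Pool.Agent.Lib.MP_3550b5_nt.TP.Log.Bound

/-! Counting, uniformly in the degree. -/

namespace Pool.Agent.Lib.MP_3550b5_nt.Lg

open PowerSeries

variable {p : ℕ} [hp : Fact p.Prime]

/-- The conclusion of `zeros_near`. -/
def ZB (p : ℕ) [Fact p.Prime] (U : ℤ_[p]⟦X⟧) (C₀ : ℕ) : Prop :=
  ∀ d : ℕ, 1 ≤ d → ∀ (γ : Mon d → ℤ_[p]) (κ ρ l : ℕ),
      (∃ i, ¬ (p : ℤ_[p]) ^ (κ + 1) ∣ γ i) →
      κ + C₀ * d ^ 13 + ρ * (C₀ * d ^ 13) < l → ∀ T : Finset ℤ_[p],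
      (∀ z ∈ T, ‖z‖ < 1 ∧ (p : ℤ_[p]) ^ l ∣ ev (comb (monF U (X * U) d) γ) z) →
      (∀ z ∈ T, ∀ z' ∈ T, z ≠ z' → z - z' ∣ (p : ℤ_[p]) ^ ρ) → T.card ≤ C₀ * d ^ 13

/-- Approximate integral points, uniformly in the degree. -/
theorem log_arc_count {U : ℤ_[p]⟦X⟧} {C₀ : ℕ} (hZ : ZB p U C₀) (κ : ℕ) {d : ℕ} (hd : 1 ≤ d)
    {c : ℤ_[p]} (hc : c ∣ (p : ℤ_[p]) ^ κ) {N l : ℕ} (hN : 1 ≤ N)
    (hl : (p * N) ^ ((33 + 2 * κ + 3 * C₀) * d ^ 13) ≤ p ^ l)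
    (T : Finset ℤ_[p]) (hT : ∀ z ∈ T, ‖z‖ < 1 ∧ ∃ m n : ℤ, |m| ≤ N ∧ |n| ≤ N ∧
      (p : ℤ_[p]) ^ l ∣ (m : ℤ_[p]) - c * ev U z ∧
      (p : ℤ_[p]) ^ l ∣ (n : ℤ_[p]) - c * ev (X * U) z)
    (hsep : ∀ z ∈ T, ∀ z' ∈ T, z ≠ z' → ∃ t : ℤ, t ≠ 0 ∧ |t| ≤ 2 * (N : ℤ) ^ 2 ∧
        z - z' ∣ (t : ℤ_[p])) :
    (T.card : ℝ) ≤ 256 * p * C₀ * (d : ℝ) ^ 13 * (N : ℝ) ^ ((16 : ℝ) / d) := by
  classical
  set L := Fintype.card (Mon d) with hL
  have hLd : L = (d + 1) ^ 2 := by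
    rw [hL, Fintype.card_prod, Fintype.card_fin]; ring
  set h := L / 2 with hh
  set H := h * (L - h) with hH
  set M := C₀ * d ^ 13 with hM
  have hL4 : 4 ≤ L := by rw [hLd]; nlinarith
  have hHL : L ^ 2 ≤ 8 * H := by
    have h1 : L ≤ 2 * h + 1 := by omega
    have h2 : 2 * h ≤ L := by omega
    obtain ⟨g, hg⟩ : ∃ g, L = h + g := ⟨L - h, by omega⟩
    rw [hH, show L - h = g by omega, hg]
    have h3 : h ≤ g := by omega
    have h4 : g ≤ h + 1 := by omega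
    have h5 : 2 ≤ h := by omega
    nlinarith
  have hHL2 : H ≤ L ^ 2 := by
    rw [hH, sq]
    exact Nat.mul_le_mul (by omega) (Nat.sub_le _ _)
  have hH1 : 1 ≤ H := by nlinarith
  have hp1 : 1 < p := hp.out.one_lt
  have hp0 : 0 < p := hp.out.pos
  have hLd4 : L ≤ 4 * d ^ 2 := by
    rw [hLd]
    calc (d + 1) ^ 2 ≤ (2 * d) ^ 2 := Nat.pow_le_pow_left (by omega) 2
      _ = 4 * d ^ 2 := by ring
  have hL2d : L ^ 2 ≤ 16 * d ^ 13 := by
    calc L ^ 2 ≤ (4 * d ^ 2) ^ 2 := Nat.pow_le_pow_left hLd4 2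
      _ = 16 * d ^ 4 := by ring
      _ ≤ 16 * d ^ 13 := Nat.mul_le_mul_left _ (Nat.pow_le_pow_right hd (by norm_num))
  have hfac : L.factorial ≤ 2 ^ (L ^ 2) := by
    refine (Nat.factorial_le_pow L).trans ?_
    rw [sq, pow_mul]
    exact Nat.pow_le_pow_left Nat.lt_two_pow_self.le _
  set W := L.factorial * (N ^ (2 * d * 1)) ^ L with hW
  have hW1 : 1 ≤ W := Nat.mul_pos (Nat.factorial_pos _) (pow_pos (pow_pos hN _) _)
  obtain ⟨j, hj0, hj1, hjm⟩ := exists_pow_gt (p := p) W hW1 hH1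
  obtain ⟨ρ, hρ0, hρ1, hρm⟩ := exists_pow_gt (p := p) (2 * N ^ 2) (by
    have h1 : 0 < N := hN
    have h2 : 0 < N ^ 2 := by positivity
    omega) le_rfl
  rw [mul_one] at hρ1 hρm
  -- the threshold
  have hA1 : 1 ≤ p ^ (2 * d * κ + M + 1) * (2 * p * N ^ 2) ^ M := by
    have h1 : 0 < N := hN
    exact Nat.succ_le_of_lt (by positivity)
  have hA2 : 1 ≤ p ^ H * W := Nat.mul_pos (pow_pos hp0 _) hW1
  have hthr : (p ^ H * W) * (p ^ (2 * d * κ + M + 1) * (2 * p * N ^ 2) ^ M) ≤ p ^ l := by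
    refine le_trans ?_ hl
    have e1 : p ^ H ≤ p ^ (16 * d ^ 13) := Nat.pow_le_pow_right hp0 (hHL2.trans hL2d)
    have e2 : L.factorial ≤ p ^ (16 * d ^ 13) := by
      refine hfac.trans ((Nat.pow_le_pow_left hp1 _).trans ?_)
      exact Nat.pow_le_pow_right hp0 hL2d
    have e3 : (N ^ (2 * d * 1)) ^ L ≤ N ^ (8 * d ^ 13) := by
      rw [← pow_mul]
      apply Nat.pow_le_pow_right hN
      calc 2 * d * 1 * L ≤ 2 * d * 1 * (4 * d ^ 2) := Nat.mul_le_mul_left _ hLd4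
        _ = 8 * d ^ 3 := by ring
        _ ≤ 8 * d ^ 13 := Nat.mul_le_mul_left _ (Nat.pow_le_pow_right hd (by norm_num))
    have e4 : p ^ (2 * d * κ + M + 1) ≤ p ^ ((2 * κ + C₀ + 1) * d ^ 13) := by
      apply Nat.pow_le_pow_right hp0
      have h1 : d ≤ d ^ 13 := Nat.le_self_pow (by norm_num) d
      have h2 : 1 ≤ d ^ 13 := Nat.one_le_pow _ _ hd
      have h3 : 2 * d * κ ≤ 2 * κ * d ^ 13 := by
        calc 2 * d * κ = 2 * κ * d := by ring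
          _ ≤ 2 * κ * d ^ 13 := Nat.mul_le_mul_left _ h1
      calc 2 * d * κ + M + 1 ≤ 2 * κ * d ^ 13 + C₀ * d ^ 13 + 1 * d ^ 13 := by omega
        _ = (2 * κ + C₀ + 1) * d ^ 13 := by ring
    have e5 : (2 * p * N ^ 2) ^ M ≤ p ^ (2 * C₀ * d ^ 13) * N ^ (2 * C₀ * d ^ 13) := by
      have h1 : 2 * p * N ^ 2 ≤ (p * N) ^ 2 := by
        calc 2 * p * N ^ 2 ≤ p * p * N ^ 2 := by gcongr; exact hp1
          _ = (p * N) ^ 2 := by ring
      calc (2 * p * N ^ 2) ^ M ≤ ((p * N) ^ 2) ^ M := Nat.pow_le_pow_left h1 _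
        _ = p ^ (2 * C₀ * d ^ 13) * N ^ (2 * C₀ * d ^ 13) := by
            rw [← pow_mul, mul_pow, hM]
            congr 2 <;> ring
    calc (p ^ H * W) * (p ^ (2 * d * κ + M + 1) * (2 * p * N ^ 2) ^ M) ≤
          (p ^ (16 * d ^ 13) * (p ^ (16 * d ^ 13) * N ^ (8 * d ^ 13))) *
            (p ^ ((2 * κ + C₀ + 1) * d ^ 13) *
              (p ^ (2 * C₀ * d ^ 13) * N ^ (2 * C₀ * d ^ 13))) := by
          rw [hW]
          gcongr
      _ = p ^ ((33 + 2 * κ + 3 * C₀) * d ^ 13) * N ^ ((8 + 2 * C₀) * d ^ 13) := by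
          have f1 : (33 + 2 * κ + 3 * C₀) * d ^ 13 = 16 * d ^ 13 + 16 * d ^ 13 +
            (2 * κ + C₀ + 1) * d ^ 13 + 2 * C₀ * d ^ 13 := by ring
          have f2 : (8 + 2 * C₀) * d ^ 13 = 8 * d ^ 13 + 2 * C₀ * d ^ 13 := by ring
          rw [f1, f2, pow_add, pow_add, pow_add, pow_add]
          ring
      _ ≤ p ^ ((33 + 2 * κ + 3 * C₀) * d ^ 13) * N ^ ((33 + 2 * κ + 3 * C₀) * d ^ 13) := by
          apply Nat.mul_le_mul_left
          apply Nat.pow_le_pow_right hN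
          apply Nat.mul_le_mul_right
          omega
      _ = (p * N) ^ ((33 + 2 * κ + 3 * C₀) * d ^ 13) := (mul_pow _ _ _).symm
  have hjl : j * H ≤ l := by
    have h1 : p ^ (j * H) ≤ p ^ l := by
      calc p ^ (j * H) = p ^ H * p ^ ((j - 1) * H) := by
            rw [← pow_add]
            congr 1
            obtain ⟨j', rfl⟩ : ∃ j', j = j' + 1 := ⟨j - 1, by omega⟩
            rw [Nat.add_sub_cancel]; ring
        _ ≤ p ^ H * W := Nat.mul_le_mul_left _ hjm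
        _ ≤ (p ^ H * W) * (p ^ (2 * d * κ + M + 1) * (2 * p * N ^ 2) ^ M) :=
            Nat.le_mul_of_pos_right _ hA1
        _ ≤ p ^ l := hthr
    exact (Nat.pow_le_pow_iff_right hp1).mp h1
  have hl2 : 2 * d * κ + M + ρ * M < l := by
    have h1 : p ^ (2 * d * κ + M + ρ * M + 1) ≤ p ^ l := by
      calc p ^ (2 * d * κ + M + ρ * M + 1) = p ^ (2 * d * κ + M + 1) * (p ^ ρ) ^ M := by
            rw [← pow_mul, ← pow_add]; congr 1; ring
        _ ≤ p ^ (2 * d * κ + M + 1) * (2 * p * N ^ 2) ^ M := by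
            gcongr
            calc p ^ ρ = p * p ^ (ρ - 1) := by rw [← pow_succ', Nat.sub_add_cancel hρ0]
              _ ≤ p * (2 * N ^ 2) := Nat.mul_le_mul_left _ hρm
              _ = 2 * p * N ^ 2 := by ring
        _ ≤ (p ^ H * W) * (p ^ (2 * d * κ + M + 1) * (2 * p * N ^ 2) ^ M) :=
            Nat.le_mul_of_pos_left _ hA2
        _ ≤ p ^ l := hthr
    exact (Nat.pow_le_pow_iff_right hp1).mp h1
  have hsep' : ∀ z ∈ T, ∀ z' ∈ T, z ≠ z' → z - z' ∣ (p : ℤ_[p]) ^ ρ := by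
    intro z hz z' hz' hne
    obtain ⟨t, ht0, ht, hdvd⟩ := hsep z hz z' hz' hne
    refine hdvd.trans (int_dvd_pow ht0 (lt_of_le_of_lt ht ?_))
    exact_mod_cast hρ1
  -- classes
  have hcard : T.card ≤ M * p ^ j := by
    have h1 := Finset.card_le_mul_card_image (f := fun z : ℤ_[p] => PadicInt.toZModPow j z) T M (by
      intro r _
      refine near_class_bound (A := U) (B := X * U) (K := 1) (hZ d hd) (N := N) (j := j) (h := h)
        hN hj0 hc hj1 hjl hl2 _ ?_ ?_ ?_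
      · intro z hz
        obtain ⟨h1, m, n, h2, h3, h4, h5⟩ := hT z (Finset.mem_filter.mp hz).1
        exact ⟨h1, m, n, h2, h3, by rw [pow_one]; exact h4, by rw [pow_one]; exact h5⟩
      · intro z hz z' hz'
        have e1 := (Finset.mem_filter.mp hz).2
        have e2 := (Finset.mem_filter.mp hz').2
        rw [dvd_iff_zmod, e1, e2]
      · intro z hz z' hz'
        exact hsep' z (Finset.mem_filter.mp hz).1 z' (Finset.mem_filter.mp hz').1)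
    refine h1.trans (Nat.mul_le_mul_left _ ?_)
    have : NeZero (p ^ j) := ⟨(pow_pos hp.out.pos _).ne'⟩
    calc _ ≤ Fintype.card (ZMod (p ^ j)) := Finset.card_le_univ _
      _ = p ^ j := ZMod.card _
  -- the estimate for p ^ (j - 1)
  have hd0 : (0 : ℝ) < d := by exact_mod_cast hd
  have hx : ((p : ℝ) ^ (j - 1)) ≤ 256 * (N : ℝ) ^ ((16 : ℝ) / d) := by
    have hN1 : (1 : ℝ) ≤ N := by exact_mod_cast hN
    apply le_of_pow_le_pow_left₀ (n := H) (by omega) (by positivity)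
    have h1 : ((p : ℝ) ^ (j - 1)) ^ H ≤ 2 ^ (8 * H) * (N : ℝ) ^ (2 * d * L) := by
      have e1 : (p ^ (j - 1)) ^ H = p ^ ((j - 1) * H) := (pow_mul _ _ _).symm
      have h2 : (p ^ (j - 1)) ^ H ≤ 2 ^ (8 * H) * N ^ (2 * d * L) := by
        rw [e1]
        refine hjm.trans ?_
        rw [hW, mul_one, ← pow_mul]
        exact Nat.mul_le_mul_right _ (hfac.trans (Nat.pow_le_pow_right (by norm_num) hHL))
      exact_mod_cast h2
    refine h1.trans ?_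
    rw [mul_pow, pow_mul]
    have h3 : (N : ℝ) ^ (2 * d * L) ≤ ((N : ℝ) ^ ((16 : ℝ) / d)) ^ H := by
      rw [← Real.rpow_natCast, ← Real.rpow_natCast, ← Real.rpow_mul (by positivity)]
      apply Real.rpow_le_rpow_of_exponent_le hN1
      push_cast
      have h4 : (L : ℝ) ^ 2 ≤ 8 * H := by exact_mod_cast hHL
      have h5 : (L : ℝ) = (d + 1) ^ 2 := by rw [hLd]; push_cast; ring
      have h6 : (d : ℝ) ^ 2 ≤ L := by rw [h5]; nlinarith
      rw [div_mul_eq_mul_div, le_div_iff₀ hd0]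
      have h7 : (0 : ℝ) ≤ L := by positivity
      nlinarith
    have h8 : ((2 : ℝ) ^ 8) ^ H = 256 ^ H := by norm_num
    rw [h8]
    gcongr
  have hM0 : (0 : ℝ) ≤ M := by positivity
  calc (T.card : ℝ) ≤ M * (p : ℝ) ^ j := by exact_mod_cast hcard
    _ = M * p * (p : ℝ) ^ (j - 1) := by
        rw [mul_assoc, ← pow_succ', Nat.sub_add_cancel hj0]
    _ ≤ M * p * (256 * (N : ℝ) ^ ((16 : ℝ) / d)) := by gcongr
    _ = _ := by rw [hM]; push_cast; ring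

end Pool.Agent.Lib.MP_3550b5_nt.Lg
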