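import Pool.Agent.Lib.MP_3550b5_nt.TP.Log.Count

/-! From the arithmetic data of the multiple `k P` to the count. -/

namespace Pool.Agent.Lib.MP_3550b5_nt.Lg

open PowerSeries

variable {p : ℕ} [hp : Fact p.Prime]

/-- Two units with the same residue and close `(p-1)`-th powers are close. -/
lemma unit_root_close {u v : ℤ_[p]} (hv : IsUnit v) {l : ℕ}
    (h1 : (p : ℤ_[p]) ∣ u - v) (h2 : (p : ℤ_[p]) ^ l ∣ u ^ (p - 1) - v ^ (p - 1)) :
    (p : ℤ_[p]) ^ l ∣ u - v := by
  set n := p - 1 with hn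
  have hp1 := hp.out.one_lt
  have e : (∑ i ∈ Finset.range n, u ^ i * v ^ (n - 1 - i)) * (u - v) = u ^ n - v ^ n :=
    (Commute.all u v).geom_sum₂_mul n
  have hS : IsUnit (∑ i ∈ Finset.range n, u ^ i * v ^ (n - 1 - i)) := by
    have h3 : (p : ℤ_[p]) ∣ (∑ i ∈ Finset.range n, u ^ i * v ^ (n - 1 - i)) -
        (n : ℤ_[p]) * v ^ (n - 1) := by
      have h4 : (n : ℤ_[p]) * v ^ (n - 1) =
          ∑ i ∈ Finset.range n, v ^ i * v ^ (n - 1 - i) := by
        rw [Finset.sum_congr rfl (g := fun _ => v ^ (n - 1))]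
        · simp
        · intro i hi
          have := Finset.mem_range.mp hi
          rw [← pow_add]
          congr 1
          omega
      rw [h4, ← Finset.sum_sub_distrib]
      refine Finset.dvd_sum fun i _ => ?_
      rw [← sub_mul]
      exact Dvd.dvd.mul_right (h1.trans (sub_dvd_pow_sub_pow u v i)) _
    have hnu : IsUnit ((n : ℤ_[p]) * v ^ (n - 1)) := by
      refine IsUnit.mul ?_ (hv.pow _)
      have h5 : ¬ (p : ℤ) ∣ (n : ℤ) := by
        intro h6
        have h7 := Int.le_of_dvd (by omega) h6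
        omega
      have := isUnit_intCast h5
      simpa using this
    rw [PadicInt.isUnit_iff] at hnu ⊢
    refine unit_of_close hnu ?_
    rw [norm_sub_rev]
    exact (PadicInt.norm_lt_one_iff_dvd _).mpr h3
  rw [← e] at h2
  exact (hS.dvd_mul_left).mp h2

/-- Size of the values of a form. -/
lemma abs_hform_le (e : ℕ) (f : Polynomial ℤ) {m n : ℤ} {N : ℕ} (hm : |m| ≤ N) (hn : |n| ≤ N) :
    |hform e f m n| ≤ ((∑ i ∈ Finset.range (e + 1), (f.coeff i).natAbs) * N ^ e : ℕ) := by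
  rw [hform]
  refine (Finset.abs_sum_le_sum_abs _ _).trans ?_
  push_cast
  rw [Finset.sum_mul]
  refine Finset.sum_le_sum fun i hi => ?_
  have hi' : i ≤ e := Nat.lt_succ_iff.mp (Finset.mem_range.mp hi)
  rw [abs_mul, abs_mul, abs_pow, abs_pow, mul_assoc]
  refine mul_le_mul_of_nonneg_left ?_ (abs_nonneg _)
  calc |m| ^ i * |n| ^ (e - i) ≤ (N : ℤ) ^ i * (N : ℤ) ^ (e - i) := by gcongr
    _ = (N : ℤ) ^ e := by rw [← pow_add, Nat.add_sub_cancel' hi']

/-- Few abscissas have a given ratio. -/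
lemma card_ratio_le {e : ℕ} {φ ψ : Polynomial ℤ} (hφ : φ.Monic) (hφd : φ.natDegree = e)
    (hψ : ψ ≠ 0) (hψd : ψ.natDegree < e) (r : ℤ_[p]) (T : Finset ℚ)
    (hT : ∀ x ∈ T, ((hform e ψ x.num x.den : ℤ) : ℤ_[p]) =
      r * ((hform e φ x.num x.den : ℤ) : ℤ_[p])) : T.card ≤ e := by
  classical
  set Q : Polynomial ℚ_[p] := ψ.map (Int.castRingHom ℚ_[p]) -
    Polynomial.C (r : ℚ_[p]) * φ.map (Int.castRingHom ℚ_[p]) with hQ
  have hφc : (φ.map (Int.castRingHom ℚ_[p])).coeff e = 1 := by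
    rw [Polynomial.coeff_map, ← hφd]
    have : φ.coeff φ.natDegree = 1 := hφ
    rw [this]; simp
  have hψc : (ψ.map (Int.castRingHom ℚ_[p])).coeff e = 0 := by
    rw [Polynomial.coeff_map, Polynomial.coeff_eq_zero_of_natDegree_lt hψd, map_zero]
  have hQ0 : Q ≠ 0 := by
    intro h0
    have h1 : Q.coeff e = 0 := by rw [h0, Polynomial.coeff_zero]
    rw [hQ, Polynomial.coeff_sub, Polynomial.coeff_C_mul, hφc, hψc, mul_one, zero_sub,
      neg_eq_zero] at h1
    rw [hQ, h1, Polynomial.C_0, zero_mul, sub_zero] at h0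
    exact hψ ((Polynomial.map_eq_zero_iff (RingHom.injective_int _)).mp h0)
  have hQd : Q.natDegree ≤ e := by
    rw [hQ]
    refine (Polynomial.natDegree_sub_le _ _).trans (max_le ?_ ?_)
    · exact Polynomial.natDegree_map_le.trans hψd.le
    · exact (Polynomial.natDegree_C_mul_le _ _).trans (Polynomial.natDegree_map_le.trans hφd.le)
  have h1 : (T.image fun x : ℚ => (x : ℚ_[p])).card = T.card :=
    Finset.card_image_of_injective _ (fun x y h => by exact_mod_cast h)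
  rw [← h1]
  refine le_trans (Finset.card_le_card ?_) ((Multiset.toFinset_card_le Q.roots).trans
    ((Polynomial.card_roots' Q).trans hQd))
  intro t ht
  obtain ⟨x, hx, rfl⟩ := Finset.mem_image.mp ht
  rw [Multiset.mem_toFinset, Polynomial.mem_roots hQ0, Polynomial.IsRoot.def, hQ,
    Polynomial.eval_sub, Polynomial.eval_mul, Polynomial.eval_C]
  have hden : ((x.den : ℤ) : ℚ_[p]) ≠ 0 := by exact_mod_cast x.den_nz
  have hxe : ((x.num : ℤ) : ℚ_[p]) = (x : ℚ_[p]) * ((x.den : ℤ) : ℚ_[p]) := by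
    have := Rat.mul_den_eq_num x
    exact_mod_cast this.symm
  have e1 : ∀ f : Polynomial ℤ, f.natDegree ≤ e → ((hform e f x.num x.den : ℤ) : ℚ_[p]) =
      ((x.den : ℤ) : ℚ_[p]) ^ e * (f.map (Int.castRingHom ℚ_[p])).eval (x : ℚ_[p]) := by
    intro f hf
    rw [hform_cast, hxe, hform_mul_right (Polynomial.natDegree_map_le.trans hf)]
  have h2 := congrArg (fun z : ℤ_[p] => (z : ℚ_[p])) (hT x hx)
  simp only [PadicInt.coe_mul, PadicInt.coe_intCast] at h2
  rw [e1 ψ hψd.le, e1 φ hφd.le] at h2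
  apply mul_left_cancel₀ (pow_ne_zero e hden)
  rw [mul_zero]
  linear_combination h2

/-- The count from the data. -/
theorem count_of_data {U : ℤ_[p]⟦X⟧} {C₀ : ℕ} (hZ : ZB p U C₀)
    {e : ℕ} (he : 1 ≤ e) {φ ψ : Polynomial ℤ} (hφ : φ.Monic) (hφd : φ.natDegree = e)
    (hψ : ψ ≠ 0) (hψd : ψ.natDegree < e) (G : Finset ℤ) (hG : (0 : ℤ) ∉ G)
    {V : Type*} (S : V → ℕ → Set ℚ)
    (h : ∀ v l, ∃ E : ℤ_[p], IsUnit E ∧ ∀ x ∈ S v l, ∃ g ∈ G,
      ¬ (p : ℤ) ∣ hform e φ x.num x.den ∧ (p : ℤ) ∣ hform e ψ x.num x.den ∧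
      ∀ Φi : ℤ_[p], ((hform e φ x.num x.den : ℤ) : ℤ_[p]) * Φi = 1 →
        IsUnit (ev U (((hform e ψ x.num x.den : ℤ) : ℤ_[p]) * Φi) * ((g : ℤ_[p]) * Φi)) ∧
        (p : ℤ_[p]) ^ l ∣ (ev U (((hform e ψ x.num x.den : ℤ) : ℤ_[p]) * Φi) *
          ((g : ℤ_[p]) * Φi)) ^ (p - 1) - E) :
    ∃ C : ℕ, 1 ≤ C ∧ ∀ (d : ℕ) (v : V) (N l : ℕ) (T : Finset ℚ), 1 ≤ d → 1 ≤ N →
      (C * N) ^ (C * d ^ 13) ≤ p ^ l →
      (∀ x ∈ T, |x.num| ≤ N ∧ x.den ≤ N ∧ x ∈ S v l) →
      (T.card : ℝ) ≤ C * (d : ℝ) ^ 13 * (N : ℝ) ^ ((C : ℝ) / d) := by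
  classical
  have hp1 := hp.out.one_lt
  have hp0 := hp.out.pos
  -- the size of the elements of `G`
  obtain ⟨κ, hκ⟩ : ∃ κ : ℕ, ∀ g ∈ G, (g : ℤ_[p]) ∣ (p : ℤ_[p]) ^ κ := by
    refine ⟨∑ g ∈ G, g.natAbs, fun g hg => int_dvd_pow (fun h0 => hG (h0 ▸ hg)) ?_⟩
    have h1 : g.natAbs ≤ ∑ g ∈ G, g.natAbs := Finset.single_le_sum (f := fun g : ℤ => g.natAbs)
      (fun _ _ => Nat.zero_le _) hg
    have h2 : g.natAbs < p ^ (∑ g ∈ G, g.natAbs) := by
      calc g.natAbs ≤ ∑ g ∈ G, g.natAbs := h1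
        _ < 2 ^ (∑ g ∈ G, g.natAbs) := Nat.lt_two_pow_self
        _ ≤ p ^ (∑ g ∈ G, g.natAbs) := Nat.pow_le_pow_left hp1 _
    rw [Int.abs_eq_natAbs]
    exact_mod_cast h2
  set C2 := (∑ i ∈ Finset.range (e + 1), (φ.coeff i).natAbs) +
    (∑ i ∈ Finset.range (e + 1), (ψ.coeff i).natAbs) + 1 with hC2
  set C1 := 33 + 2 * κ + 3 * C₀ with hC1
  set C := e * (G.card * p) * (256 * p * C₀ * C2 ^ 16) + p * C2 + e * C1 + 16 * e with hC
  have hC21 : 1 ≤ C2 := by omega
  refine ⟨C, by omega, fun d v N l T hd hN hl hT => ?_⟩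
  obtain ⟨E, hE, hdat⟩ := h v l
  -- the data of the points
  have hdat2 : ∀ x : T, ∃ (g : ℤ) (Φi : ℤ_[p]), g ∈ G ∧
      (p : ℤ) ∣ hform e ψ (x : ℚ).num (x : ℚ).den ∧
      ((hform e φ (x : ℚ).num (x : ℚ).den : ℤ) : ℤ_[p]) * Φi = 1 ∧
      IsUnit (ev U (((hform e ψ (x : ℚ).num (x : ℚ).den : ℤ) : ℤ_[p]) * Φi) *
        ((g : ℤ_[p]) * Φi)) ∧
      (p : ℤ_[p]) ^ l ∣ (ev U (((hform e ψ (x : ℚ).num (x : ℚ).den : ℤ) : ℤ_[p]) * Φi) *
          ((g : ℤ_[p]) * Φi)) ^ (p - 1) - E := by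
    intro x
    obtain ⟨g, hg, h1, h2, h3⟩ := hdat x (hT x x.2).2.2
    obtain ⟨Φi, hΦi⟩ : ∃ Φi : ℤ_[p],
        ((hform e φ (x : ℚ).num (x : ℚ).den : ℤ) : ℤ_[p]) * Φi = 1 := by
      obtain ⟨u, hu⟩ := isUnit_intCast h1
      exact ⟨_, by rw [← hu]; exact u.mul_inv⟩
    exact ⟨g, Φi, hg, h2, hΦi, (h3 Φi hΦi).1, (h3 Φi hΦi).2⟩
  choose g Φi hg hpψ hΦi hun hclose using hdat2
  set A : T → ℤ := fun x => hform e φ (x : ℚ).num (x : ℚ).den with hA
  set B : T → ℤ := fun x => hform e ψ (x : ℚ).num (x : ℚ).den with hB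
  set r : T → ℤ_[p] := fun x => (B x : ℤ_[p]) * Φi x with hr
  set w : T → ℤ_[p] := fun x => ev U (r x) * ((g x : ℤ_[p]) * Φi x) with hw
  have hrB : ∀ x, (B x : ℤ_[p]) = r x * (A x : ℤ_[p]) := by
    intro x
    have := hΦi x
    simp only [hr]
    linear_combination (-(B x : ℤ_[p])) * this
  have hr1 : ∀ x, ‖r x‖ < 1 := fun x => norm_mul_lt_one
    ((PadicInt.norm_int_lt_one_iff_dvd _).mpr (hpψ x))
  have hwA : ∀ x, w x * (A x : ℤ_[p]) = ev U (r x) * (g x : ℤ_[p]) := by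
    intro x
    have := hΦi x
    simp only [hw]
    linear_combination (ev U (r x) * (g x : ℤ_[p])) * this
  -- sizes
  set N₁ := C2 * N ^ e with hN₁
  have hN₁1 : 1 ≤ N₁ := Nat.mul_pos hC21 (pow_pos hN _)
  have hsize : ∀ x, |A x| ≤ N₁ ∧ |B x| ≤ N₁ := by
    intro x
    obtain ⟨h1, h2, -⟩ := hT x x.2
    have h2' : |((x : ℚ).den : ℤ)| ≤ N := by rw [Nat.abs_cast]; exact_mod_cast h2
    constructor
    · refine (abs_hform_le e φ h1 h2').trans ?_
      have : (∑ i ∈ Finset.range (e + 1), (φ.coeff i).natAbs) * N ^ e ≤ N₁ :=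
        Nat.mul_le_mul_right _ (by omega)
      exact_mod_cast this
    · refine (abs_hform_le e ψ h1 h2').trans ?_
      have : (∑ i ∈ Finset.range (e + 1), (ψ.coeff i).natAbs) * N ^ e ≤ N₁ :=
        Nat.mul_le_mul_right _ (by omega)
      exact_mod_cast this
  -- the map to classes and ratios
  set f : T → (ℤ × ZMod p) × ℤ_[p] := fun x => ((g x, PadicInt.toZMod (w x)), r x) with hf
  have hfib : T.card ≤ e * ((Finset.univ : Finset T).image f).card := by
    have h1 := Finset.card_le_mul_card_image (f := f) (Finset.univ : Finset T) e (by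
      intro y _
      have h2 : ((Finset.univ.filter fun x : T => f x = y).image fun x : T => (x : ℚ)).card =
          (Finset.univ.filter fun x : T => f x = y).card :=
        Finset.card_image_of_injective _ Subtype.coe_injective
      rw [← h2]
      refine card_ratio_le hφ hφd hψ hψd y.2 _ fun x hx => ?_
      obtain ⟨x', hx', rfl⟩ := Finset.mem_image.mp hx
      have h3 : r x' = y.2 := by rw [← (Finset.mem_filter.mp hx').2]
      rw [← h3]
      exact hrB x')
    rwa [Finset.card_univ, Fintype.card_coe] at h1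
  set R := (Finset.univ : Finset T).image f with hRdef
  set n₀ : ℝ := 256 * p * C₀ * (d : ℝ) ^ 13 * (N₁ : ℝ) ^ ((16 : ℝ) / d) with hn₀
  have hcls : ∀ τ : ℤ × ZMod p, ((R.filter fun y => y.1 = τ).card : ℝ) ≤ n₀ := by
    intro τ
    set Rτ := (R.filter fun y => y.1 = τ).image Prod.snd with hRτ
    have hc1 : Rτ.card = (R.filter fun y => y.1 = τ).card := by
      apply Finset.card_image_of_injOn
      intro y hy y' hy' hyy
      have e1 := (Finset.mem_filter.mp (Finset.mem_coe.mp hy)).2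
      have e2 := (Finset.mem_filter.mp (Finset.mem_coe.mp hy')).2
      exact Prod.ext (e1.trans e2.symm) hyy
    have hmem : ∀ z ∈ Rτ, ∃ x : T, g x = τ.1 ∧ PadicInt.toZMod (w x) = τ.2 ∧ r x = z := by
      intro z hz
      obtain ⟨y, hy, rfl⟩ := Finset.mem_image.mp hz
      obtain ⟨hy1, hy2⟩ := Finset.mem_filter.mp hy
      obtain ⟨x, -, rfl⟩ := Finset.mem_image.mp hy1
      exact ⟨x, by rw [← hy2], by rw [← hy2], rfl⟩
    rw [← hc1]
    rcases Rτ.eq_empty_or_nonempty with h0 | ⟨z₀, hz₀⟩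
    · rw [h0]
      simp only [Finset.card_empty, Nat.cast_zero]
      positivity
    · obtain ⟨x₀, hx₀g, hx₀w, -⟩ := hmem z₀ hz₀
      obtain ⟨wi, hwi⟩ : ∃ wi, w x₀ * wi = 1 := by
        obtain ⟨u, hu⟩ := hun x₀
        exact ⟨_, by simp only [hw]; rw [← hu]; exact u.mul_inv⟩
      have hwiu : IsUnit wi := IsUnit.of_mul_eq_one _ (by rw [mul_comm]; exact hwi)
      refine log_arc_count hZ κ hd (c := (g x₀ : ℤ_[p]) * wi)
        (hwiu.mul_right_dvd.mpr (hκ _ (hg x₀))) hN₁1 (l := l) ?_ Rτ ?_ ?_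
      · -- the threshold
        refine le_trans ?_ hl
        calc (p * N₁) ^ (C1 * d ^ 13) ≤ ((C * N) ^ e) ^ (C1 * d ^ 13) := by
              apply Nat.pow_le_pow_left
              rw [hN₁, mul_pow, ← mul_assoc]
              apply Nat.mul_le_mul_right
              calc p * C2 ≤ C := by omega
                _ ≤ C ^ e := Nat.le_self_pow (by omega) C
          _ = (C * N) ^ (e * C1 * d ^ 13) := by rw [← pow_mul, mul_assoc]
          _ ≤ (C * N) ^ (C * d ^ 13) := by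
              apply Nat.pow_le_pow_right
              · exact Nat.mul_pos (by omega) hN
              · exact Nat.mul_le_mul_right _ (by omega)
      · intro z hz
        obtain ⟨x, hxg, hxw, rfl⟩ := hmem z hz
        refine ⟨hr1 x, A x, B x, (hsize x).1, (hsize x).2, ?_⟩
        have hww : (p : ℤ_[p]) ∣ w x - w x₀ := by
          have h1 : PadicInt.toZMod (w x - w x₀) = 0 := by
            rw [map_sub, hxw, hx₀w, sub_self]
          have h2 : w x - w x₀ ∈ RingHom.ker (PadicInt.toZMod : ℤ_[p] →+* ZMod p) := h1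
          rw [PadicInt.ker_toZMod, PadicInt.maximalIdeal_eq_span_p,
            Ideal.mem_span_singleton] at h2
          exact h2
        have hww2 : (p : ℤ_[p]) ^ l ∣ w x - w x₀ := by
          refine unit_root_close (hun x₀) hww ?_
          have h3 := dvd_sub (hclose x) (hclose x₀)
          have h4 : w x ^ (p - 1) - w x₀ ^ (p - 1) =
            (w x ^ (p - 1) - E) - (w x₀ ^ (p - 1) - E) := by ring
          rw [h4]
          exact h3
        have hgx : g x = g x₀ := by rw [hxg, hx₀g]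
        have hA1 : (A x : ℤ_[p]) - (g x₀ : ℤ_[p]) * wi * ev U (r x) =
            (w x - w x₀) * (-(wi * (A x : ℤ_[p]))) := by
          have h5 := hwA x
          rw [hgx] at h5
          linear_combination (-(A x : ℤ_[p])) * hwi + wi * h5
        have hA2 : (p : ℤ_[p]) ^ l ∣ (A x : ℤ_[p]) - (g x₀ : ℤ_[p]) * wi * ev U (r x) := by
          rw [hA1]
          exact Dvd.dvd.mul_right hww2 _
        refine ⟨hA2, ?_⟩
        have hB1 : (B x : ℤ_[p]) - (g x₀ : ℤ_[p]) * wi * ev (X * U) (r x) =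
            ((A x : ℤ_[p]) - (g x₀ : ℤ_[p]) * wi * ev U (r x)) * r x := by
          rw [ev_mul _ _ (hr1 x), ev_X, hrB x]
          ring
        rw [hB1]
        exact Dvd.dvd.mul_right hA2 _
      · intro z hz z' hz' hne
        obtain ⟨x, -, -, rfl⟩ := hmem z hz
        obtain ⟨x', -, -, rfl⟩ := hmem z' hz'
        have e1 : ((B x * A x' - B x' * A x : ℤ) : ℤ_[p]) =
            (r x - r x') * ((A x : ℤ_[p]) * (A x' : ℤ_[p])) := by
          push_cast
          rw [hrB x, hrB x']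
          ring
        refine ⟨B x * A x' - B x' * A x, ?_, ?_, ?_⟩
        · intro h0
          rw [h0, Int.cast_zero] at e1
          have hA0 : ∀ x, (A x : ℤ_[p]) ≠ 0 := by
            intro x h1
            have := hΦi x
            simp only [hA] at h1
            rw [h1, zero_mul] at this
            exact zero_ne_one this
          rcases mul_eq_zero.mp e1.symm with h2 | h2
          · exact hne (sub_eq_zero.mp h2)
          · exact (mul_ne_zero (hA0 x) (hA0 x')) h2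
        · have h1 : |B x * A x'| ≤ (N₁ : ℤ) * N₁ := by
            rw [abs_mul]
            exact mul_le_mul (hsize x).2 (hsize x').1 (abs_nonneg _) (by positivity)
          have h2 : |B x' * A x| ≤ (N₁ : ℤ) * N₁ := by
            rw [abs_mul]
            exact mul_le_mul (hsize x').2 (hsize x).1 (abs_nonneg _) (by positivity)
          have h3 := abs_sub (B x * A x') (B x' * A x)
          nlinarith
        · rw [e1]
          exact Dvd.intro _ rfl
  -- the number of classes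
  have hRcard : (R.card : ℝ) ≤ (G.card * p : ℕ) * n₀ := by
    have h1 : R.card = ∑ τ ∈ R.image Prod.fst, (R.filter fun y => y.1 = τ).card :=
      Finset.card_eq_sum_card_image _ _
    rw [h1]
    push_cast
    have h2 : (∑ τ ∈ R.image Prod.fst, ((R.filter fun y => y.1 = τ).card : ℝ)) ≤
        (R.image Prod.fst).card • n₀ := Finset.sum_le_card_nsmul _ _ _ fun τ _ => hcls τ
    refine h2.trans ?_
    rw [nsmul_eq_mul]
    have hn₀0 : 0 ≤ n₀ := by positivity
    refine mul_le_mul_of_nonneg_right ?_ hn₀0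
    have h3 : (R.image Prod.fst) ⊆ G ×ˢ (Finset.univ : Finset (ZMod p)) := by
      intro τ hτ
      obtain ⟨y, hy, rfl⟩ := Finset.mem_image.mp hτ
      obtain ⟨x, -, rfl⟩ := Finset.mem_image.mp hy
      exact Finset.mem_product.mpr ⟨hg x, Finset.mem_univ _⟩
    have h4 := Finset.card_le_card h3
    rw [Finset.card_product, Finset.card_univ, ZMod.card] at h4
    exact_mod_cast h4
  -- the final estimate
  have hd0 : (0 : ℝ) < d := by exact_mod_cast hd
  have hd1 : (1 : ℝ) ≤ d := by exact_mod_cast hd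
  have hN1 : (1 : ℝ) ≤ N := by exact_mod_cast hN
  have hC2r : (1 : ℝ) ≤ C2 := by exact_mod_cast hC21
  have hpow : (N₁ : ℝ) ^ ((16 : ℝ) / d) ≤ (C2 : ℝ) ^ 16 * (N : ℝ) ^ ((C : ℝ) / d) := by
    rw [hN₁]
    push_cast
    rw [Real.mul_rpow (by positivity) (by positivity)]
    refine mul_le_mul ?_ ?_ (by positivity) (by positivity)
    · rw [← Real.rpow_natCast]
      apply Real.rpow_le_rpow_of_exponent_le hC2r
      rw [div_le_iff₀ hd0]
      push_cast
      nlinarith
    · rw [← Real.rpow_natCast, ← Real.rpow_mul (by positivity)]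
      apply Real.rpow_le_rpow_of_exponent_le hN1
      rw [mul_div_assoc', div_le_div_iff_of_pos_right hd0]
      have : 16 * e ≤ C := by omega
      have h5 : ((16 * e : ℕ) : ℝ) ≤ C := by exact_mod_cast this
      push_cast at h5
      linarith
  have hK : (e * (G.card * p) * (256 * p * C₀ * C2 ^ 16) : ℕ) ≤ C := by omega
  have hKr : ((e * (G.card * p) * (256 * p * C₀ * C2 ^ 16) : ℕ) : ℝ) ≤ C := by exact_mod_cast hK
  calc (T.card : ℝ) ≤ e * R.card := by exact_mod_cast hfib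
    _ ≤ e * ((G.card * p : ℕ) * n₀) := by gcongr
    _ ≤ e * ((G.card * p : ℕ) * (256 * p * C₀ * (d : ℝ) ^ 13 *
          ((C2 : ℝ) ^ 16 * (N : ℝ) ^ ((C : ℝ) / d)))) := by
        rw [hn₀]
        exact mul_le_mul_of_nonneg_left (mul_le_mul_of_nonneg_left
          (mul_le_mul_of_nonneg_left hpow (mul_nonneg (mul_nonneg (mul_nonneg (by norm_num)
            (Nat.cast_nonneg _)) (Nat.cast_nonneg _)) (pow_nonneg hd0.le _)))
            (Nat.cast_nonneg _)) (Nat.cast_nonneg _)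
    _ = ((e * (G.card * p) * (256 * p * C₀ * C2 ^ 16) : ℕ) : ℝ) * (d : ℝ) ^ 13 *
          (N : ℝ) ^ ((C : ℝ) / d) := by push_cast; ring
    _ ≤ C * (d : ℝ) ^ 13 * (N : ℝ) ^ ((C : ℝ) / d) := by gcongr

end Pool.Agent.Lib.MP_3550b5_nt.Lg
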