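import Pool.Agent.Lib.MP_3550b5_nt.TP.Defs

/-! POLYLOG TWIST POINTS (leader helper67): definitions. -/

namespace Pool.Agent.Lib.MP_3550b5_nt.Lg

open PowerSeries

/-- `U' = v U`, `U(0) = 1` and `2 G v' + G' v + L = 0`, where `G = X + a X^3 + b X^4` and
`L = c + a X + 2 b X^2`. -/
structure IsVU {R : Type*} [CommRing R] (a b c : R) (v U : R⟦X⟧) : Prop where
  one : constantCoeff U = 1
  der : derivative R U = v * U
  ode : 2 * (X * (1 + C a * X ^ 2 + C b * X ^ 3)) * derivative R v +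
      (1 + 3 * C a * X ^ 2 + 4 * C b * X ^ 3) * v + (C c + C a * X + 2 * C b * X ^ 2) = 0

/-- The sum of the absolute values of the coefficients. -/
def l1 (Z : Polynomial ℤ) : ℕ := ∑ i ∈ Z.support, (Z.coeff i).natAbs

/-- The `k`-th coefficient times `(2k)!` is an integral polynomial (in the parameter) of degree at
most `k` and of length at most `(2k)! T^k`. -/
def InA (T : ℕ) (f : (Polynomial ℚ)⟦X⟧) : Prop :=
  ∀ k : ℕ, ∃ Z : Polynomial ℤ,
    Z.map (Int.castRingHom ℚ) = Polynomial.C ((2 * k).factorial : ℚ) * coeff k f ∧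
    Z.natDegree ≤ k ∧ l1 Z ≤ (2 * k).factorial * T ^ k

/-- The order bound. -/
def ordB (I J : ℕ) : ℕ :=
  ((J + 1) ^ 2 + 1) * ((J + 1) * (I + 4 * (J + 1)) + 4 * (J + 1) ^ 2)

end Pool.Agent.Lib.MP_3550b5_nt.Lg
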